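import Mathlib

set_option autoImplicit false

open scoped ENNReal InnerProductSpace ComplexConjugate

namespace Pool.Agent.Lib.MP_b87acb_an

/-- A family of `n` real matrices satisfying the canonical anticommutation relations (creation
operators on the antisymmetric Fock space), together with matrices `P m` (the projections onto
the `m`-particle spaces). -/
structure IsCAR {n : ℕ} {ι : Type} [Fintype ι] [DecidableEq ι] (C : Fin n → Matrix ι ι ℂ)
    (P : ℕ → Matrix ι ι ℂ) : Prop where
  real : ∀ i, (C i).conjTranspose = (C i).transpose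
  anti : ∀ i j, C i * C j + C j * C i = 0
  car : ∀ i j, (C i).transpose * C j + C j * (C i).transpose = if i = j then 1 else 0
  step : ∀ m : ℕ, ∑ i, C i * P m * (C i).transpose = ((m : ℂ) + 1) • P (m + 1)
  card : ∀ m : ℕ, ∑ q, ∑ p, ‖P m p q‖ ^ 2 = (n.choose m : ℝ)

lemma isCAR_zero : IsCAR (n := 0) (ι := Unit) (fun i => i.elim0)
    (fun m => if m = 0 then 1 else 0) where
  real i := i.elim0
  anti i := i.elim0
  car i := i.elim0
  step m := by simp
  card m := by
    rcases m with _ | m
    · simp
    · simp

lemma isCAR_succ {n : ℕ} {ι : Type} [Fintype ι] [DecidableEq ι] {C : Fin n → Matrix ι ι ℂ}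
    {P : ℕ → Matrix ι ι ℂ} (h : IsCAR C P) :
    IsCAR (n := n + 1) (ι := ι ⊕ ι)
      (Fin.cons (Matrix.fromBlocks 0 0 1 0) fun i => Matrix.fromBlocks (C i) 0 0 (-C i))
      (fun m => Matrix.fromBlocks (P m) 0 0 (if m = 0 then 0 else P (m - 1))) where
  real i := by
    refine Fin.cases ?_ (fun i => ?_) i
    · simp [Matrix.fromBlocks_conjTranspose, Matrix.fromBlocks_transpose]
    · simp [Matrix.fromBlocks_conjTranspose, Matrix.fromBlocks_transpose, h.real]
  anti i j := by
    refine Fin.cases ?_ (fun i => ?_) i <;> refine Fin.cases ?_ (fun j => ?_) j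
    · simp [Matrix.fromBlocks_multiply]
    · simp [Matrix.fromBlocks_multiply, Matrix.fromBlocks_add]
    · simp [Matrix.fromBlocks_multiply, Matrix.fromBlocks_add]
    · simp [Matrix.fromBlocks_multiply, Matrix.fromBlocks_add, h.anti]
  car i j := by
    refine Fin.cases ?_ (fun i => ?_) i <;> refine Fin.cases ?_ (fun j => ?_) j
    · simp [Matrix.fromBlocks_multiply, Matrix.fromBlocks_transpose, Matrix.fromBlocks_add]
    · simp [Matrix.fromBlocks_multiply, Matrix.fromBlocks_transpose, Matrix.fromBlocks_add,
        (Fin.succ_ne_zero j).symm]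
    · simp [Matrix.fromBlocks_multiply, Matrix.fromBlocks_transpose, Matrix.fromBlocks_add]
    · have := h.car i j
      simp only [Fin.cons_succ, Matrix.fromBlocks_transpose, Matrix.fromBlocks_multiply,
        Matrix.fromBlocks_add, Fin.succ_inj]
      split_ifs with hij
      · rw [if_pos hij] at this
        subst hij
        simp [this]
      · rw [if_neg hij] at this
        simp [this]
  step m := by
    rw [Fin.sum_univ_succ]
    simp only [Fin.cons_zero, Fin.cons_succ, Matrix.fromBlocks_transpose,
      Matrix.fromBlocks_multiply]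
    have e : ∑ i, Matrix.fromBlocks (C i * P m * (C i).transpose) 0 0
        (C i * (if m = 0 then 0 else P (m - 1)) * (C i).transpose) =
        Matrix.fromBlocks (((m : ℂ) + 1) • P (m + 1)) 0 0 ((m : ℂ) • P m) := by
      rw [← h.step m]
      have e2 : ∑ i, C i * (if m = 0 then 0 else P (m - 1)) * (C i).transpose = (m : ℂ) • P m := by
        rcases m with _ | m
        · simp
        · have := h.step m
          simp only [Nat.succ_ne_zero, if_false, Nat.add_sub_cancel, Nat.cast_add, Nat.cast_one]
          exact this
      rw [← e2]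
      generalize (if m = 0 then (0 : Matrix ι ι ℂ) else P (m - 1)) = Q
      ext a b
      rcases a with a | a <;> rcases b with b | b <;>
        simp [Matrix.sum_apply]
    simp only [Matrix.mul_zero, Matrix.zero_mul, add_zero, zero_add, Matrix.transpose_zero,
      Matrix.transpose_one, Matrix.mul_one, Matrix.one_mul, Matrix.transpose_neg, Matrix.mul_neg,
      Matrix.neg_mul, neg_neg, neg_zero]
    rw [e, Matrix.fromBlocks_add, Matrix.fromBlocks_smul]
    congr 1
    · simp
    · simp
    · simp
    · simp [add_smul, add_comm]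
  card m := by
    rw [Fintype.sum_sum_type]
    simp only [Fintype.sum_sum_type, Matrix.fromBlocks_apply₁₁, Matrix.fromBlocks_apply₂₁,
      Matrix.fromBlocks_apply₁₂, Matrix.fromBlocks_apply₂₂, Matrix.zero_apply]
    rcases m with _ | m
    · simp [h.card 0]
    · have h1 := h.card m
      have h2 := h.card (m + 1)
      simp [h1, h2, Nat.choose_succ_succ, add_comm]

lemma IsCAR.reindex {n : ℕ} {ι : Type} [Fintype ι] [DecidableEq ι] {C : Fin n → Matrix ι ι ℂ}
    {P : ℕ → Matrix ι ι ℂ} (h : IsCAR C P) {κ : Type} [Fintype κ] [DecidableEq κ] (e : κ ≃ ι) :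
    IsCAR (fun i => (C i).submatrix e e) (fun m => (P m).submatrix e e) where
  real i := by
    rw [Matrix.conjTranspose_submatrix, h.real, Matrix.transpose_submatrix]
  anti i j := by
    have : (C i * C j).submatrix e e + (C j * C i).submatrix e e =
        (C i * C j + C j * C i).submatrix e e := rfl
    rw [Matrix.submatrix_mul_equiv, Matrix.submatrix_mul_equiv, this, h.anti]
    rfl
  car i j := by
    have : ((C i).transpose * C j).submatrix e e + (C j * (C i).transpose).submatrix e e =
        ((C i).transpose * C j + C j * (C i).transpose).submatrix e e := rfl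
    rw [Matrix.transpose_submatrix, Matrix.submatrix_mul_equiv, Matrix.submatrix_mul_equiv,
      this, h.car]
    split_ifs <;> simp
  step m := by
    simp only [Matrix.transpose_submatrix, Matrix.submatrix_mul_equiv]
    have : ∑ x, (C x * P m * (C x).transpose).submatrix e e =
        (∑ x, C x * P m * (C x).transpose).submatrix e e := by
      ext a b
      simp [Matrix.sum_apply]
    rw [this, h.step]
    rfl
  card m := by
    rw [← h.card m]
    simp only [Matrix.submatrix_apply]
    rw [← Equiv.sum_comp e]
    refine Finset.sum_congr rfl fun q _ => ?_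
    exact Equiv.sum_comp e fun p => ‖P m p (e q)‖ ^ 2

theorem exists_car (n : ℕ) : ∃ (k : ℕ) (C : Fin n → Matrix (Fin k) (Fin k) ℂ)
    (P : ℕ → Matrix (Fin k) (Fin k) ℂ), 0 < k ∧ IsCAR C P := by
  have main : ∀ n : ℕ, ∃ (ι : Type) (_ : Fintype ι) (_ : DecidableEq ι) (_ : Nonempty ι)
      (C : Fin n → Matrix ι ι ℂ) (P : ℕ → Matrix ι ι ℂ), IsCAR C P := by
    intro n
    induction n with
    | zero => exact ⟨Unit, inferInstance, inferInstance, inferInstance, _, _, isCAR_zero⟩
    | succ n ih =>
      obtain ⟨ι, _, _, _, C, P, h⟩ := ih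
      exact ⟨ι ⊕ ι, inferInstance, inferInstance, inferInstance, _, _, isCAR_succ h⟩
  obtain ⟨ι, _, _, _, C, P, h⟩ := main n
  exact ⟨Fintype.card ι, _, _, Fintype.card_pos, h.reindex (Fintype.equivFin ι).symm⟩

end Pool.Agent.Lib.MP_b87acb_an
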