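import Mathlib

set_option autoImplicit false

open scoped ENNReal InnerProductSpace ComplexConjugate
open Complex

namespace Pool.Agent.Lib.MP_b87acb_an

section Phases

/-- The phase function: coordinate `i` of the phase vector attached to `g`. -/
noncomputable def ph {n : ℕ} (g : Fin n → ZMod 4) (i : Fin n) : ℂ := I ^ (g i).val

lemma I_pow_add_one (x : ZMod 4) : I ^ (x + 1).val = I * I ^ x.val := by
  rw [ZMod.val_add, ← Complex.I_pow_eq_pow_mod, show (1 : ZMod 4).val = 1 from rfl, pow_succ]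
  ring

lemma norm_ph {n : ℕ} (g : Fin n → ZMod 4) (i : Fin n) : ‖ph g i‖ = 1 := by
  simp [ph]

lemma conj_mul_ph {n : ℕ} (g : Fin n → ZMod 4) (i : Fin n) : conj (ph g i) * ph g i = 1 := by
  rw [← Complex.normSq_eq_conj_mul_self, Complex.normSq_eq_norm_sq, norm_ph]; simp

/-- the shift by one in coordinate `a` -/
lemma ph_shift {n : ℕ} (g : Fin n → ZMod 4) (a i : Fin n) :
    ph (g + Pi.single a 1) i = if i = a then I * ph g i else ph g i := by
  unfold ph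
  split_ifs with h
  · subst h
    rw [Pi.add_apply, Pi.single_eq_same, I_pow_add_one]
  · rw [Pi.add_apply, Pi.single_eq_of_ne h, add_zero]

/-- If a function on the phase group is multiplied by `c ≠ 1` under the shift in one coordinate, its
sum vanishes. -/
lemma sum_eq_zero_of_shift {n : ℕ} (F : (Fin n → ZMod 4) → ℂ) (a : Fin n) (c : ℂ) (hc : c ≠ 1)
    (h : ∀ g, F (g + Pi.single a 1) = c * F g) : ∑ g, F g = 0 := by
  have h1 : ∑ g : Fin n → ZMod 4, F (g + Pi.single a 1) = ∑ g, F g :=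
    Fintype.sum_equiv (Equiv.addRight (Pi.single a (1 : ZMod 4) : Fin n → ZMod 4))
      (fun g => F (g + Pi.single a 1)) F (fun g => rfl)
  have h2 : ∑ g : Fin n → ZMod 4, F (g + Pi.single a 1) = c * ∑ g, F g := by
    rw [Finset.mul_sum]
    exact Finset.sum_congr rfl fun g _ => h g
  have h3 : (c - 1) * ∑ g, F g = 0 := by
    rw [sub_mul, one_mul, ← h2, h1, sub_self]
  rcases mul_eq_zero.1 h3 with h4 | h4
  · exact absurd (sub_eq_zero.1 h4) hc
  · exact h4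

lemma I_ne_one' : (I : ℂ) ≠ 1 := by
  intro h; simpa using congrArg Complex.im h

lemma I_sq_ne : (-1 : ℂ) ≠ 1 := by norm_num

lemma ph_shift_same {n : ℕ} (g : Fin n → ZMod 4) (a : Fin n) :
    ph (g + Pi.single a 1) a = I * ph g a := by
  rw [ph_shift, if_pos rfl]

lemma ph_shift_ne {n : ℕ} (g : Fin n → ZMod 4) {a i : Fin n} (h : i ≠ a) :
    ph (g + Pi.single a 1) i = ph g i := by
  rw [ph_shift, if_neg h]

lemma sum_ph (n : ℕ) (i j : Fin n) (hij : i ≠ j) :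
    ∑ g : Fin n → ZMod 4, conj (ph g i) * ph g j = 0 := by
  refine sum_eq_zero_of_shift _ j I I_ne_one' fun g => ?_
  rw [ph_shift_ne g hij, ph_shift_same]
  ring

lemma sum_ph_four (n : ℕ) (i j k l : Fin n) (hij : i ≠ j) (hkl : k ≠ l)
    (h : ¬ (i = k ∧ j = l)) :
    ∑ g : Fin n → ZMod 4, conj (conj (ph g i) * ph g j) * (conj (ph g k) * ph g l) = 0 := by
  by_cases hik : i = k
  · subst hik
    have hjl : j ≠ l := fun h' => h ⟨rfl, h'⟩
    refine sum_eq_zero_of_shift _ l I I_ne_one' fun g => ?_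
    rw [ph_shift_ne g hjl, ph_shift_ne g hkl, ph_shift_same]
    ring
  · by_cases hil : i = l
    · subst hil
      refine sum_eq_zero_of_shift _ i (-1) I_sq_ne fun g => ?_
      rw [ph_shift_ne g hkl, ph_shift_ne g hij.symm, ph_shift_same]
      simp only [map_mul, Complex.conj_conj]
      linear_combination (ph g i * conj (ph g j) * (conj (ph g k) * ph g i)) * I_mul_I
    · refine sum_eq_zero_of_shift _ i I I_ne_one' fun g => ?_
      rw [ph_shift_ne g hij.symm, ph_shift_ne g (Ne.symm hik), ph_shift_ne g (Ne.symm hil),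
        ph_shift_same]
      simp only [map_mul, Complex.conj_conj]
      ring

end Phases

section Averaging

variable {K : Type*} [NormedAddCommGroup K] [InnerProductSpace ℂ K]

lemma split_diag {n : ℕ} (g : Fin n → ZMod 4) (w : Fin n → Fin n → K) :
    ∑ i, ∑ j, (conj (ph g i) * ph g j) • w i j =
      ∑ i, w i i + ∑ p ∈ (Finset.univ : Finset (Fin n)).offDiag,
        (conj (ph g p.1) * ph g p.2) • w p.1 p.2 := by
  rw [← Finset.sum_product', ← Finset.diag_union_offDiag,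
    Finset.sum_union (Finset.disjoint_diag_offDiag _), Finset.sum_diag]
  simp [conj_mul_ph]

lemma sum_norm_sq (n : ℕ) (w : Fin n → Fin n → K) :
    ∑ g : Fin n → ZMod 4, ‖∑ i, ∑ j, (conj (ph g i) * ph g j) • w i j‖ ^ 2 =
      (Fintype.card (Fin n → ZMod 4) : ℝ) *
        (‖∑ i, w i i‖ ^ 2 + ∑ p ∈ (Finset.univ : Finset (Fin n)).offDiag, ‖w p.1 p.2‖ ^ 2) := by
  have key : (∑ g : Fin n → ZMod 4,
      (⟪∑ i, ∑ j, (conj (ph g i) * ph g j) • w i j,
        ∑ i, ∑ j, (conj (ph g i) * ph g j) • w i j⟫_ℂ)) =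
      ((Fintype.card (Fin n → ZMod 4) : ℝ) *
        (‖∑ i, w i i‖ ^ 2 +
          ∑ p ∈ (Finset.univ : Finset (Fin n)).offDiag, ‖w p.1 p.2‖ ^ 2) : ℝ) := by
    simp only [split_diag, inner_add_left, inner_add_right, Finset.sum_add_distrib]
    have h0 : ∑ g : Fin n → ZMod 4, ⟪∑ i, w i i,
        ∑ p ∈ (Finset.univ : Finset (Fin n)).offDiag,
          (conj (ph g p.1) * ph g p.2) • w p.1 p.2⟫_ℂ = 0 := by
      simp only [inner_sum, inner_smul_right]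
      rw [Finset.sum_comm]
      refine Finset.sum_eq_zero fun p hp => ?_
      rw [← Finset.sum_mul, sum_ph n _ _ (Finset.mem_offDiag.1 hp).2.2, zero_mul]
    have h1 : ∑ g : Fin n → ZMod 4, ⟪
        ∑ p ∈ (Finset.univ : Finset (Fin n)).offDiag,
          (conj (ph g p.1) * ph g p.2) • w p.1 p.2, ∑ i, w i i⟫_ℂ = 0 := by
      have := congrArg conj h0
      rw [map_sum, map_zero] at this
      rw [← this]
      exact Finset.sum_congr rfl fun g _ => (inner_conj_symm _ _).symm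
    have h2 : ∑ g : Fin n → ZMod 4, ⟪
        ∑ p ∈ (Finset.univ : Finset (Fin n)).offDiag,
          (conj (ph g p.1) * ph g p.2) • w p.1 p.2,
        ∑ p ∈ (Finset.univ : Finset (Fin n)).offDiag,
          (conj (ph g p.1) * ph g p.2) • w p.1 p.2⟫_ℂ =
        (Fintype.card (Fin n → ZMod 4) : ℂ) *
          ∑ p ∈ (Finset.univ : Finset (Fin n)).offDiag, (‖w p.1 p.2‖ : ℂ) ^ 2 := by
      simp only [inner_sum, sum_inner, inner_smul_right, inner_smul_left]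
      rw [Finset.sum_comm, Finset.mul_sum]
      refine Finset.sum_congr rfl fun q hq => ?_
      simp only [Finset.mul_sum]
      rw [Finset.sum_comm]
      rw [Finset.sum_eq_single q]
      · have : ∀ g : Fin n → ZMod 4, conj (ph g q.1) * ph g q.2 *
            (conj (conj (ph g q.1) * ph g q.2) * ⟪w q.1 q.2, w q.1 q.2⟫_ℂ) =
            (‖w q.1 q.2‖ : ℂ) ^ 2 := by
          intro g
          have e1 := conj_mul_ph g q.1
          have e2 := conj_mul_ph g q.2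
          rw [inner_self_eq_norm_sq_to_K]
          simp only [map_mul, Complex.conj_conj, Complex.coe_algebraMap]
          linear_combination ((‖w q.1 q.2‖ : ℂ) ^ 2) * (conj (ph g q.2) * ph g q.2) * e1 +
            ((‖w q.1 q.2‖ : ℂ) ^ 2) * e2
        rw [Finset.sum_congr rfl fun g _ => this g]
        simp
      · intro p hp hpq
        have : ∀ g : Fin n → ZMod 4, conj (ph g q.1) * ph g q.2 *
            (conj (conj (ph g p.1) * ph g p.2) * ⟪w p.1 p.2, w q.1 q.2⟫_ℂ) =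
            (conj (conj (ph g p.1) * ph g p.2) * (conj (ph g q.1) * ph g q.2)) *
              ⟪w p.1 p.2, w q.1 q.2⟫_ℂ := by intro g; ring
        rw [Finset.sum_congr rfl fun g _ => this g, ← Finset.sum_mul,
          sum_ph_four n _ _ _ _ (Finset.mem_offDiag.1 hp).2.2 (Finset.mem_offDiag.1 hq).2.2
            (fun h => hpq (Prod.ext h.1 h.2)), zero_mul]
      · intro h; exact absurd hq h
    rw [h0, h1, h2]
    simp only [inner_self_eq_norm_sq_to_K, Finset.sum_const, Finset.card_univ, nsmul_eq_mul,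
      add_zero, zero_add]
    push_cast
    simp only [Complex.coe_algebraMap]
    ring
  have := congrArg Complex.re key
  rw [Complex.ofReal_re, Complex.re_sum] at this
  rw [← this]
  refine Finset.sum_congr rfl fun g _ => ?_
  rw [inner_self_eq_norm_sq_to_K]
  norm_cast

lemma sum_norm_sq_one (n : ℕ) (v : Fin n → K) :
    ∑ g : Fin n → ZMod 4, ‖∑ i, ph g i • v i‖ ^ 2 =
      (Fintype.card (Fin n → ZMod 4) : ℝ) * ∑ i, ‖v i‖ ^ 2 := by
  have key : (∑ g : Fin n → ZMod 4, ⟪∑ i, ph g i • v i, ∑ i, ph g i • v i⟫_ℂ) =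
      ((Fintype.card (Fin n → ZMod 4) : ℝ) * ∑ i, ‖v i‖ ^ 2 : ℝ) := by
    simp only [inner_sum, sum_inner, inner_smul_right, inner_smul_left]
    simp only [Finset.mul_sum]
    rw [Finset.sum_comm]
    push_cast
    refine Finset.sum_congr rfl fun j _ => ?_
    rw [Finset.sum_comm, Finset.sum_eq_single j]
    · have : ∀ g : Fin n → ZMod 4, ph g j * (conj (ph g j) * ⟪v j, v j⟫_ℂ) =
          (‖v j‖ : ℂ) ^ 2 := by
        intro g
        have e1 := conj_mul_ph g j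
        rw [inner_self_eq_norm_sq_to_K]
        simp only [Complex.coe_algebraMap]
        linear_combination ((‖v j‖ : ℂ) ^ 2) * e1
      rw [Finset.sum_congr rfl fun g _ => this g]
      simp
    · intro i _ hij
      have : ∀ g : Fin n → ZMod 4, ph g j * (conj (ph g i) * ⟪v i, v j⟫_ℂ) =
          (conj (ph g i) * ph g j) * ⟪v i, v j⟫_ℂ := by intro g; ring
      rw [Finset.sum_congr rfl fun g _ => this g, ← Finset.sum_mul, sum_ph n i j hij, zero_mul]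
    · intro h; exact absurd (Finset.mem_univ _) h
  have := congrArg Complex.re key
  rw [Complex.ofReal_re, Complex.re_sum] at this
  rw [← this]
  refine Finset.sum_congr rfl fun g _ => ?_
  rw [inner_self_eq_norm_sq_to_K]
  norm_cast

end Averaging

section CoreInequality

open ContinuousLinearMap

variable {K : Type*} [NormedAddCommGroup K] [InnerProductSpace ℂ K] [CompleteSpace K]

/-- The key inequality.  If `‖∑ lᵢ bᵢ‖ ≤ 1` for all unimodular `lᵢ` then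
`(∑ bᵢ* bᵢ)² + ∑_{i ≠ j} bⱼ* bᵢ bᵢ* bⱼ ≤ ∑ bᵢ* bᵢ`, in vector form. -/
theorem core_ineq {n : ℕ} (b : Fin n → K →L[ℂ] K)
    (hb : ∀ l : Fin n → ℂ, (∀ i, ‖l i‖ = 1) → ‖∑ i, l i • b i‖ ≤ 1) (ξ : K) :
    ‖∑ i, adjoint (b i) (b i ξ)‖ ^ 2 +
      ∑ p ∈ (Finset.univ : Finset (Fin n)).offDiag, ‖adjoint (b p.1) (b p.2 ξ)‖ ^ 2 ≤
      ∑ i, ‖b i ξ‖ ^ 2 := by
  set c : ℝ := (Fintype.card (Fin n → ZMod 4) : ℝ) with hc
  have hcpos : 0 < c := by
    rw [hc]; exact_mod_cast Fintype.card_pos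
  have h1 := sum_norm_sq n (fun i j => adjoint (b i) (b j ξ))
  have h2 := sum_norm_sq_one n (fun i => b i ξ)
  have h3 : ∀ g : Fin n → ZMod 4,
      ‖∑ i, ∑ j, (conj (ph g i) * ph g j) • adjoint (b i) (b j ξ)‖ ^ 2 ≤
        ‖∑ i, ph g i • b i ξ‖ ^ 2 := by
    intro g
    have e1 : ∑ i, ∑ j, (conj (ph g i) * ph g j) • adjoint (b i) (b j ξ) =
        adjoint (∑ i, ph g i • b i) (∑ i, ph g i • b i ξ) := by
      have e0 : adjoint (∑ i, ph g i • b i) = ∑ i, conj (ph g i) • adjoint (b i) := by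
        rw [map_sum]
        exact Finset.sum_congr rfl fun i _ => by rw [map_smulₛₗ]
      rw [e0, _root_.sum_apply]
      refine Finset.sum_congr rfl fun i _ => ?_
      rw [_root_.smul_apply, map_sum, Finset.smul_sum]
      refine Finset.sum_congr rfl fun j _ => ?_
      rw [map_smul, smul_smul]
    rw [e1]
    have e2 : ‖adjoint (∑ i, ph g i • b i)‖ ≤ 1 := by
      rw [LinearIsometryEquiv.norm_map]
      exact hb _ (norm_ph g)
    have e3 := ContinuousLinearMap.le_of_opNorm_le _ e2 (∑ i, ph g i • b i ξ)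
    rw [one_mul] at e3
    exact pow_le_pow_left₀ (norm_nonneg _) e3 2
  have h4 := Finset.sum_le_sum fun g (_ : g ∈ (Finset.univ : Finset (Fin n → ZMod 4))) => h3 g
  rw [h1, h2] at h4
  exact le_of_mul_le_mul_left h4 hcpos

/-- `‖∑ bᵢ* bᵢ ξ‖ ≥ ∑ ‖bᵢ ξ‖²` for a unit vector. -/
lemma sum_le_norm {n : ℕ} (b : Fin n → K →L[ℂ] K) (ξ : K) (hξ : ‖ξ‖ = 1) :
    ∑ i, ‖b i ξ‖ ^ 2 ≤ ‖∑ i, adjoint (b i) (b i ξ)‖ := by
  have h1 : ⟪ξ, ∑ i, adjoint (b i) (b i ξ)⟫_ℂ = ((∑ i, ‖b i ξ‖ ^ 2 : ℝ) : ℂ) := by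
    rw [inner_sum]
    push_cast
    refine Finset.sum_congr rfl fun i _ => ?_
    rw [adjoint_inner_right, inner_self_eq_norm_sq_to_K]
    norm_cast
  have h2 := norm_inner_le_norm (𝕜 := ℂ) ξ (∑ i, adjoint (b i) (b i ξ))
  rw [h1, hξ, one_mul] at h2
  rw [Complex.norm_real] at h2
  exact le_trans (le_abs_self _) h2

/-- the norm square of `∑ Uᵢ bᵢ ξ` expanded -/
lemma norm_sq_expand {n : ℕ} (U b : Fin n → K →L[ℂ] K)
    (h1 : ∀ i j v, U i (b j v) = b j (U i v))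
    (h2 : ∀ i j v, U i (adjoint (b j) v) = adjoint (b j) (U i v)) (ξ : K) :
    ((‖∑ i, U i (b i ξ)‖ ^ 2 : ℝ) : ℂ) =
      ∑ i, ∑ j, ⟪adjoint (b j) (b i ξ), adjoint (U i) (U j ξ)⟫_ℂ := by
  have e : ((‖∑ i, U i (b i ξ)‖ ^ 2 : ℝ) : ℂ) =
      ⟪∑ i, U i (b i ξ), ∑ i, U i (b i ξ)⟫_ℂ := by
    rw [inner_self_eq_norm_sq_to_K]; norm_cast
  rw [e, sum_inner]
  refine Finset.sum_congr rfl fun i _ => ?_
  rw [inner_sum]
  refine Finset.sum_congr rfl fun j _ => ?_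
  rw [adjoint_inner_right, h2, h1 i i, h1 j j, adjoint_inner_left]

lemma real_opt {m K t : ℝ} (ht : t ^ 2 ≤ m - m ^ 2) :
    m + K * t ≤ (1 + Real.sqrt (1 + K ^ 2)) / 2 := by
  have h1 : ((m - 1 / 2) + K * t) ^ 2 ≤ (1 + K ^ 2) / 4 := by
    nlinarith [sq_nonneg (K * (m - 1 / 2) - t), mul_nonneg (sq_nonneg K) (sub_nonneg.2 ht)]
  have h2 : (m - 1 / 2) + K * t ≤ Real.sqrt ((1 + K ^ 2) / 4) := Real.le_sqrt_of_sq_le h1
  have h3 : Real.sqrt ((1 + K ^ 2) / 4) = Real.sqrt (1 + K ^ 2) / 2 := by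
    rw [Real.sqrt_div (by positivity), show (4 : ℝ) = 2 ^ 2 by norm_num,
      Real.sqrt_sq (by norm_num)]
  rw [h3] at h2
  linarith

/-- First upper bound, vector form. -/
theorem bound_one {n : ℕ} (U b : Fin n → K →L[ℂ] K)
    (h1 : ∀ i j v, U i (b j v) = b j (U i v))
    (h2 : ∀ i j v, U i (adjoint (b j) v) = adjoint (b j) (U i v))
    (hU : ∀ i, ‖U i‖ ≤ 1)
    (hb : ∀ l : Fin n → ℂ, (∀ i, ‖l i‖ = 1) → ‖∑ i, l i • b i‖ ≤ 1)
    (ξ : K) (hξ : ‖ξ‖ = 1) :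
    ‖∑ i, U i (b i ξ)‖ ^ 2 ≤ (1 + Real.sqrt (1 + (n : ℝ) * (n - 1))) / 2 := by
  set m : ℝ := ∑ i, ‖b i ξ‖ ^ 2 with hm
  have hU' : ∀ i v, ‖U i v‖ ≤ ‖v‖ := fun i v => by
    simpa using ContinuousLinearMap.le_of_opNorm_le _ (hU i) v
  have hUa : ∀ i v, ‖adjoint (U i) v‖ ≤ ‖v‖ := fun i v => by
    have : ‖adjoint (U i)‖ ≤ 1 := by rw [LinearIsometryEquiv.norm_map]; exact hU i
    simpa using ContinuousLinearMap.le_of_opNorm_le _ this v
  have e := norm_sq_expand U b h1 h2 ξ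
  set od := (Finset.univ : Finset (Fin n)).offDiag with hod
  have e2 : ∑ i, ∑ j, ⟪adjoint (b j) (b i ξ), adjoint (U i) (U j ξ)⟫_ℂ =
      ∑ i, ⟪adjoint (b i) (b i ξ), adjoint (U i) (U i ξ)⟫_ℂ +
        ∑ p ∈ od, ⟪adjoint (b p.1) (b p.2 ξ), adjoint (U p.2) (U p.1 ξ)⟫_ℂ := by
    rw [Finset.sum_comm, ← Finset.sum_product', ← Finset.diag_union_offDiag,
      Finset.sum_union (Finset.disjoint_diag_offDiag _), Finset.sum_diag]
  have hdiag : ‖∑ i, ⟪adjoint (b i) (b i ξ), adjoint (U i) (U i ξ)⟫_ℂ‖ ≤ m := by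
    refine (norm_sum_le _ _).trans (Finset.sum_le_sum fun i _ => ?_)
    have e3 : ⟪adjoint (b i) (b i ξ), adjoint (U i) (U i ξ)⟫_ℂ =
        ⟪U i (b i ξ), U i (b i ξ)⟫_ℂ := by
      rw [adjoint_inner_right, h2, h1 i i, adjoint_inner_left]
    rw [e3, inner_self_eq_norm_sq_to_K, norm_pow]
    have : ‖((‖U i (b i ξ)‖ : ℝ) : ℂ)‖ = ‖U i (b i ξ)‖ := by simp
    refine pow_le_pow_left₀ (norm_nonneg _) ?_ 2
    calc _ = ‖U i (b i ξ)‖ := this
      _ ≤ _ := hU' i _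
  set t : ℝ := Real.sqrt (∑ p ∈ od, ‖adjoint (b p.1) (b p.2 ξ)‖ ^ 2) with ht
  have hcard : (od.card : ℝ) = (n : ℝ) * (n - 1) := by
    rw [hod, Finset.offDiag_card, Finset.card_univ, Fintype.card_fin]
    rcases Nat.eq_zero_or_pos n with h0 | h0
    · subst h0; simp
    · rw [Nat.cast_sub (Nat.le_mul_of_pos_left _ h0)]; push_cast; ring
  have hoff : ‖∑ p ∈ od, ⟪adjoint (b p.1) (b p.2 ξ), adjoint (U p.2) (U p.1 ξ)⟫_ℂ‖ ≤
      Real.sqrt ((n : ℝ) * (n - 1)) * t := by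
    calc _ ≤ ∑ p ∈ od, 1 * ‖adjoint (b p.1) (b p.2 ξ)‖ := by
          refine (norm_sum_le _ _).trans (Finset.sum_le_sum fun p _ => ?_)
          refine (norm_inner_le_norm _ _).trans ?_
          rw [mul_comm]
          refine mul_le_mul_of_nonneg_right ?_ (norm_nonneg _)
          exact (hUa _ _).trans ((hU' _ _).trans hξ.le)
      _ ≤ Real.sqrt (∑ p ∈ od, (1 : ℝ) ^ 2) *
            Real.sqrt (∑ p ∈ od, ‖adjoint (b p.1) (b p.2 ξ)‖ ^ 2) :=
          Real.sum_mul_le_sqrt_mul_sqrt _ _ _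
      _ = _ := by rw [ht]; simp [hcard]
  have hcore := core_ineq b hb ξ
  have hsl := sum_le_norm b ξ hξ
  have hm0 : 0 ≤ m := Finset.sum_nonneg fun i _ => by positivity
  have ht2 : t ^ 2 ≤ m - m ^ 2 := by
    rw [ht, Real.sq_sqrt (Finset.sum_nonneg fun i _ => by positivity)]
    have : m ^ 2 ≤ ‖∑ i, adjoint (b i) (b i ξ)‖ ^ 2 := pow_le_pow_left₀ hm0 hsl 2
    linarith
  have hfin : ‖∑ i, U i (b i ξ)‖ ^ 2 ≤ m + Real.sqrt ((n : ℝ) * (n - 1)) * t := by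
    have : ‖(((‖∑ i, U i (b i ξ)‖ ^ 2 : ℝ)) : ℂ)‖ ≤ m + Real.sqrt ((n : ℝ) * (n - 1)) * t := by
      rw [e, e2]
      exact (norm_add_le _ _).trans (add_le_add hdiag hoff)
    rw [Complex.norm_real, Real.norm_of_nonneg (by positivity)] at this
    exact this
  refine hfin.trans ?_
  have := real_opt (K := Real.sqrt ((n : ℝ) * (n - 1))) ht2
  rwa [Real.sq_sqrt] at this
  rcases Nat.eq_zero_or_pos n with h0 | h0
  · subst h0; simp
  · have : (1 : ℝ) ≤ n := by exact_mod_cast h0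
    nlinarith

/-- Second inequality: for `‖∑ lᵢ aᵢ‖ ≤ √n` on the unimodular vectors and `‖aᵢ‖ ≤ 1`. -/
theorem core_ineq_two {n : ℕ} (hn : 0 < n) (a : Fin n → K →L[ℂ] K)
    (ha : ∀ l : Fin n → ℂ, (∀ i, ‖l i‖ = 1) → ‖∑ i, l i • a i‖ ≤ Real.sqrt n)
    (ha1 : ∀ i, ‖a i‖ ≤ 1) (ξ : K) :
    ‖∑ i, adjoint (a i) (a i ξ)‖ ^ 2 + ∑ i, ∑ j, ‖adjoint (a i) (a j ξ)‖ ^ 2 ≤
      (n + 1) * ∑ i, ‖a i ξ‖ ^ 2 := by
  have hn' : (0 : ℝ) < n := by exact_mod_cast hn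
  set r : ℝ := (Real.sqrt n)⁻¹ with hr
  have hrpos : 0 < r := by rw [hr]; positivity
  have hr2 : r ^ 2 = (n : ℝ)⁻¹ := by rw [hr, inv_pow, Real.sq_sqrt hn'.le]
  have key := core_ineq (fun i => (r : ℂ) • a i) (by
    intro l hl
    have : ∑ i, l i • ((r : ℂ) • a i) = (r : ℂ) • ∑ i, l i • a i := by
      rw [Finset.smul_sum]
      exact Finset.sum_congr rfl fun i _ => smul_comm _ _ _
    rw [this, norm_smul, Complex.norm_real, Real.norm_of_nonneg hrpos.le]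
    calc r * ‖∑ i, l i • a i‖ ≤ r * Real.sqrt n :=
          mul_le_mul_of_nonneg_left (ha l hl) hrpos.le
      _ = 1 := by rw [hr]; exact inv_mul_cancel₀ (by positivity)) ξ
  have e1 : ∀ i j, adjoint ((r : ℂ) • a i) (((r : ℂ) • a j) ξ) =
      ((r ^ 2 : ℝ) : ℂ) • adjoint (a i) (a j ξ) := by
    intro i j
    rw [map_smulₛₗ, _root_.smul_apply, _root_.smul_apply, map_smul, smul_smul]
    congr 1
    simp [sq]
  simp only [e1, ← Finset.smul_sum] at key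
  simp only [norm_smul, _root_.smul_apply, Complex.norm_real,
    Real.norm_of_nonneg hrpos.le, mul_pow, hr2, ← Finset.mul_sum] at key
  rw [Real.norm_of_nonneg (by positivity : (0 : ℝ) ≤ (n : ℝ)⁻¹)] at key
  have key2 : ‖∑ i, adjoint (a i) (a i ξ)‖ ^ 2 +
      ∑ p ∈ (Finset.univ : Finset (Fin n)).offDiag, ‖adjoint (a p.1) (a p.2 ξ)‖ ^ 2 ≤
      n * ∑ i, ‖a i ξ‖ ^ 2 := by
    have h := mul_le_mul_of_nonneg_left key (by positivity : (0 : ℝ) ≤ (n : ℝ) ^ 2)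
    have e2 : (n : ℝ) ^ 2 * ((n : ℝ)⁻¹ * ∑ i, ‖a i ξ‖ ^ 2) = n * ∑ i, ‖a i ξ‖ ^ 2 := by
      field_simp
    have e3 : ∀ x y : ℝ, (n : ℝ) ^ 2 * ((n : ℝ)⁻¹ ^ 2 * x + (n : ℝ)⁻¹ ^ 2 * y) = x + y := by
      intro x y; field_simp
    rw [e2, e3] at h
    exact h
  have e4 : ∑ i, ∑ j, ‖adjoint (a i) (a j ξ)‖ ^ 2 =
      ∑ i, ‖adjoint (a i) (a i ξ)‖ ^ 2 +
        ∑ p ∈ (Finset.univ : Finset (Fin n)).offDiag, ‖adjoint (a p.1) (a p.2 ξ)‖ ^ 2 := by
    rw [← Finset.sum_product', ← Finset.diag_union_offDiag,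
      Finset.sum_union (Finset.disjoint_diag_offDiag _), Finset.sum_diag]
  have e5 : ∑ i, ‖adjoint (a i) (a i ξ)‖ ^ 2 ≤ ∑ i, ‖a i ξ‖ ^ 2 := by
    refine Finset.sum_le_sum fun i _ => ?_
    have : ‖adjoint (a i)‖ ≤ 1 := by rw [LinearIsometryEquiv.norm_map]; exact ha1 i
    have h := ContinuousLinearMap.le_of_opNorm_le _ this (a i ξ)
    rw [one_mul] at h
    exact pow_le_pow_left₀ (norm_nonneg _) h 2
  rw [e4]
  linarith

lemma sum_sq_le {n : ℕ} (hn : 0 < n) (a : Fin n → K →L[ℂ] K)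
    (ha : ∀ l : Fin n → ℂ, (∀ i, ‖l i‖ = 1) → ‖∑ i, l i • a i‖ ≤ Real.sqrt n)
    (ha1 : ∀ i, ‖a i‖ ≤ 1) (ξ : K) (hξ : ‖ξ‖ = 1) :
    ∑ i, ∑ j, ‖adjoint (a i) (a j ξ)‖ ^ 2 ≤ (((n : ℝ) + 1) / 2) ^ 2 := by
  have h1 := core_ineq_two hn a ha ha1 ξ
  have h2 := sum_le_norm a ξ hξ
  have hm0 : 0 ≤ ∑ i, ‖a i ξ‖ ^ 2 := Finset.sum_nonneg fun i _ => by positivity
  have h3 : (∑ i, ‖a i ξ‖ ^ 2) ^ 2 ≤ ‖∑ i, adjoint (a i) (a i ξ)‖ ^ 2 :=
    pow_le_pow_left₀ hm0 h2 2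
  nlinarith [sq_nonneg ((∑ i, ‖a i ξ‖ ^ 2) - ((n : ℝ) + 1) / 2)]

/-- Second upper bound, vector form. -/
theorem bound_two {n : ℕ} (hn : 0 < n) (U b : Fin n → K →L[ℂ] K)
    (h1 : ∀ i j v, U i (b j v) = b j (U i v))
    (h2 : ∀ i j v, U i (adjoint (b j) v) = adjoint (b j) (U i v))
    (hU : ∀ l : Fin n → ℂ, (∀ i, ‖l i‖ = 1) → ‖∑ i, l i • U i‖ ≤ Real.sqrt n)
    (hU1 : ∀ i, ‖U i‖ ≤ 1)
    (hb : ∀ l : Fin n → ℂ, (∀ i, ‖l i‖ = 1) → ‖∑ i, l i • b i‖ ≤ Real.sqrt n)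
    (hb1 : ∀ i, ‖b i‖ ≤ 1)
    (ξ : K) (hξ : ‖ξ‖ = 1) :
    ‖∑ i, U i (b i ξ)‖ ≤ ((n : ℝ) + 1) / 2 := by
  have e := norm_sq_expand U b h1 h2 ξ
  have hA := sum_sq_le hn b hb hb1 ξ hξ
  have hB := sum_sq_le hn U hU hU1 ξ hξ
  have key : ‖∑ i, U i (b i ξ)‖ ^ 2 ≤ (((n : ℝ) + 1) / 2) ^ 2 := by
    have h3 : ‖∑ i, ∑ j, ⟪adjoint (b j) (b i ξ), adjoint (U i) (U j ξ)⟫_ℂ‖ ≤
        (((n : ℝ) + 1) / 2) ^ 2 := by
      rw [← Finset.sum_product']
      calc _ ≤ ∑ p ∈ (Finset.univ : Finset (Fin n)) ×ˢ (Finset.univ : Finset (Fin n)),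
            ‖adjoint (b p.2) (b p.1 ξ)‖ * ‖adjoint (U p.1) (U p.2 ξ)‖ :=
            (norm_sum_le _ _).trans (Finset.sum_le_sum fun p _ => norm_inner_le_norm _ _)
        _ ≤ Real.sqrt (∑ p ∈ (Finset.univ : Finset (Fin n)) ×ˢ (Finset.univ : Finset (Fin n)),
              ‖adjoint (b p.2) (b p.1 ξ)‖ ^ 2) *
            Real.sqrt (∑ p ∈ (Finset.univ : Finset (Fin n)) ×ˢ (Finset.univ : Finset (Fin n)),
              ‖adjoint (U p.1) (U p.2 ξ)‖ ^ 2) := Real.sum_mul_le_sqrt_mul_sqrt _ _ _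
        _ ≤ (((n : ℝ) + 1) / 2) * (((n : ℝ) + 1) / 2) := by
            refine mul_le_mul ?_ ?_ (Real.sqrt_nonneg _) (by positivity)
            · refine Real.sqrt_le_iff.2 ⟨by positivity, ?_⟩
              rw [Finset.sum_product, Finset.sum_comm]
              exact hA
            · refine Real.sqrt_le_iff.2 ⟨by positivity, ?_⟩
              rw [Finset.sum_product]
              exact hB
        _ = _ := by ring
    rw [← e, Complex.norm_real, Real.norm_of_nonneg (by positivity)] at h3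
    exact h3
  exact le_of_sq_le_sq key (by positivity)

end CoreInequality

end Pool.Agent.Lib.MP_b87acb_an
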