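import Mathlib

set_option autoImplicit false

open scoped ENNReal

namespace Pool.Agent.Lib.MP_b87acb_an

/-- The operator norm, on the Hilbert direct sum `H ⊕ ⋯ ⊕ H` (`k` copies, with norm
`(∑ j, ‖v j‖²)^(1/2)`), of the `k × k` operator matrix `(T i j)`, whose value at `v` has `i`-th
coordinate `∑ j, T i j (v j)`. -/
noncomputable def matNorm {k : ℕ} {H : Type} [NormedAddCommGroup H]
    (T : Fin k → Fin k → H → H) : ℝ≥0∞ :=
  ⨆ (v : Fin k → H) (_ : ∑ j, ‖v j‖ ^ 2 ≤ 1),
    ENNReal.ofReal (Real.sqrt (∑ i, ‖∑ j, T i j (v j)‖ ^ 2))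

/-- The norm of a matrix `x` in `M_k(min(E))`: the supremum, over the linear functionals `f` on
`E` with `‖f‖ ≤ 1`, of the operator norm of the scalar matrix `(f (x i j))` acting on the
Hilbert space `ℓ₂^k`. -/
noncomputable def minNorm {E : Type} [NormedAddCommGroup E] [NormedSpace ℂ E] {k : ℕ}
    (x : Fin k → Fin k → E) : ℝ≥0∞ :=
  ⨆ (f : E →ₗ[ℂ] ℂ) (_ : ∀ z, ‖f z‖ ≤ ‖z‖), matNorm fun i j (c : ℂ) => f (x i j) * c

/-- `u` is a linear contraction `E → B(H)`: it is linear in `z ∈ E`, every `u z` is a linear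
operator on `H`, and `‖u z‖ ≤ ‖z‖`, that is, `‖u z v‖ ≤ ‖z‖ ‖v‖` for all `z ∈ E`, `v ∈ H`. -/
structure IsContraction {E H : Type} [NormedAddCommGroup E] [NormedSpace ℂ E]
    [NormedAddCommGroup H] [InnerProductSpace ℂ H] (u : E → H → H) : Prop where
  map_add : ∀ (y z : E) (v : H), u (y + z) v = u y v + u z v
  map_smul : ∀ (c : ℂ) (z : E) (v : H), u (c • z) v = c • u z v
  apply_add : ∀ (z : E) (v w : H), u z (v + w) = u z v + u z w
  apply_smul : ∀ (c : ℂ) (z : E) (v : H), u z (c • v) = c • u z v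
  bound : ∀ (z : E) (v : H), ‖u z v‖ ≤ ‖z‖ * ‖v‖

/-- The norm of a matrix `x` in `M_k(max(E))`: the supremum, over all complex Hilbert spaces `H`
and all linear maps `u : E → B(H)` with `‖u‖ ≤ 1`, of the norm of the operator matrix
`(u (x i j))` in `M_k(B(H)) = B(H^k)`. -/
noncomputable def maxNorm {E : Type} [NormedAddCommGroup E] [NormedSpace ℂ E] {k : ℕ}
    (x : Fin k → Fin k → E) : ℝ≥0∞ :=
  ⨆ (H : Type) (_ : NormedAddCommGroup H) (_ : InnerProductSpace ℂ H) (_ : CompleteSpace H)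
    (u : E → H → H) (_ : IsContraction u), matNorm fun i j => u (x i j)

/-- `α(E) = ‖id : min(E) → max(E)‖_cb`: the supremum over all `k` of the norm of the identity map
`M_k(min(E)) → M_k(max(E))`, that is, the supremum of the norm in `M_k(max(E))` over all
matrices `x` of norm at most `1` in `M_k(min(E))`. -/
noncomputable def alpha (E : Type) [NormedAddCommGroup E] [NormedSpace ℂ E] : ℝ≥0∞ :=
  ⨆ (k : ℕ) (x : Fin k → Fin k → E) (_ : minNorm x ≤ 1), maxNorm x

end Pool.Agent.Lib.MP_b87acb_an
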