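import Mathlib

set_option autoImplicit false

open scoped ENNReal

namespace Pool.Agent.Lib.MP_b87acb_an

/-- The bounded operator on the Hilbert direct sum `H ⊕ ⋯ ⊕ H` (`k` copies) given by a `k × k`
matrix of bounded operators on `H`: the `i`-th coordinate of `blockOp T v` is `∑ j, T i j (v j)`.
This is the usual identification `M_k(B(H)) = B(H^k)`. -/
noncomputable def blockOp {k : ℕ} {H : Type} [NormedAddCommGroup H] [InnerProductSpace ℂ H]
    (T : Matrix (Fin k) (Fin k) (H →L[ℂ] H)) :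
    PiLp 2 (fun _ : Fin k => H) →L[ℂ] PiLp 2 (fun _ : Fin k => H) :=
  ((PiLp.continuousLinearEquiv 2 ℂ (fun _ : Fin k => H)).symm :
      (Fin k → H) →L[ℂ] PiLp 2 (fun _ : Fin k => H)) ∘L
    (ContinuousLinearMap.pi fun i => ∑ j, (T i j) ∘L (ContinuousLinearMap.proj j)) ∘L
    ((PiLp.continuousLinearEquiv 2 ℂ (fun _ : Fin k => H)) :
      PiLp 2 (fun _ : Fin k => H) →L[ℂ] (Fin k → H))

/-- The norm of a matrix `x` in `M_k(min(E))`: the supremum, over the linear functionals `f` on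
`E` with `‖f‖ ≤ 1`, of the operator norm of the scalar matrix `(f (x i j))` acting on the
Hilbert space `ℓ₂^k`. -/
noncomputable def minNormOp (E : Type) [NormedAddCommGroup E] [NormedSpace ℂ E] {k : ℕ}
    (x : Matrix (Fin k) (Fin k) E) : ℝ≥0∞ :=
  ⨆ (f : E →L[ℂ] ℂ) (_ : ‖f‖ ≤ 1), ‖Matrix.toEuclideanCLM (𝕜 := ℂ) (n := Fin k) (x.map f)‖ₑ

/-- The norm of a matrix `x` in `M_k(max(E))`: the supremum, over all complex Hilbert spaces `H`
and all linear maps `u : E → B(H)` with `‖u‖ ≤ 1`, of the norm of `(u (x i j))` in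
`M_k(B(H)) = B(H^k)`. -/
noncomputable def maxNormOp (E : Type) [NormedAddCommGroup E] [NormedSpace ℂ E] {k : ℕ}
    (x : Matrix (Fin k) (Fin k) E) : ℝ≥0∞ :=
  ⨆ (H : Type) (_ : NormedAddCommGroup H) (_ : InnerProductSpace ℂ H) (_ : CompleteSpace H)
    (u : E →L[ℂ] (H →L[ℂ] H)) (_ : ‖u‖ ≤ 1), ‖blockOp (x.map u)‖ₑ

/-- `α(E) = ‖id : min(E) → max(E)‖_cb`: the supremum over all `k` of the norm of the identity map
`M_k(min(E)) → M_k(max(E))`, that is, the supremum of the norm in `M_k(max(E))` over all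
matrices `x` of norm at most `1` in `M_k(min(E))`. -/
noncomputable def alphaOp (E : Type) [NormedAddCommGroup E] [NormedSpace ℂ E] : ℝ≥0∞ :=
  ⨆ (k : ℕ) (x : Matrix (Fin k) (Fin k) E) (_ : minNormOp E x ≤ 1), maxNormOp E x

section Basic

variable {k : ℕ} {H : Type} [NormedAddCommGroup H] [InnerProductSpace ℂ H]

lemma blockOp_apply (T : Matrix (Fin k) (Fin k) (H →L[ℂ] H))
    (v : PiLp 2 (fun _ : Fin k => H)) (i : Fin k) :
    (blockOp T v) i = ∑ j, T i j (v j) := by
  simp [blockOp]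

end Basic

end Pool.Agent.Lib.MP_b87acb_an
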