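import Mathlib
import Pool.Agent.Lib.MP_b87acb_an.Defs
import Pool.Agent.Lib.MP_b87acb_an.DefsOp

set_option autoImplicit false

open scoped ENNReal

namespace Pool.Agent.Lib.MP_b87acb_an

lemma matNorm_eq_enorm {k : ℕ} {H : Type} [NormedAddCommGroup H] [InnerProductSpace ℂ H]
    (T : Fin k → Fin k → H → H)
    (A : PiLp 2 (fun _ : Fin k => H) →L[ℂ] PiLp 2 (fun _ : Fin k => H))
    (hA : ∀ v i, (A v) i = ∑ j, T i j (v j)) :
    matNorm T = ‖A‖ₑ := by
  have key : ∀ v : PiLp 2 (fun _ : Fin k => H),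
      Real.sqrt (∑ i, ‖∑ j, T i j (v j)‖ ^ 2) = ‖A v‖ := by
    intro v
    rw [PiLp.norm_eq_of_L2]
    simp only [hA]
  have knorm : ∀ v : PiLp 2 (fun _ : Fin k => H), ∑ j, ‖v j‖ ^ 2 = ‖v‖ ^ 2 := by
    intro v
    rw [PiLp.norm_sq_eq_of_L2]
  apply le_antisymm
  · refine iSup₂_le fun v hv => ?_
    have h1 := key (WithLp.toLp 2 v)
    have h2 := knorm (WithLp.toLp 2 v)
    simp only [] at h1 h2
    rw [h1, ← ofReal_norm]
    refine ENNReal.ofReal_le_ofReal ?_
    have h3 : ‖(WithLp.toLp 2 v : PiLp 2 (fun _ : Fin k => H))‖ ^ 2 ≤ 1 := by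
      rw [← h2]; exact hv
    have h4 : ‖(WithLp.toLp 2 v : PiLp 2 (fun _ : Fin k => H))‖ ≤ 1 := by
      nlinarith [norm_nonneg (WithLp.toLp 2 v : PiLp 2 (fun _ : Fin k => H))]
    exact (A.le_opNorm _).trans (mul_le_of_le_one_right (norm_nonneg _) h4)
  · by_cases htop : matNorm T = ⊤
    · rw [htop]; exact le_top
    · rw [← ofReal_norm]
      refine ENNReal.ofReal_le_of_le_toReal ?_
      refine ContinuousLinearMap.opNorm_le_of_unit_norm ENNReal.toReal_nonneg fun v hv => ?_
      rw [← ENNReal.ofReal_le_iff_le_toReal htop]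
      rw [← key v]
      refine le_iSup₂_of_le (v : Fin k → H) ?_ le_rfl
      rw [knorm v, hv]
      norm_num

lemma matNorm_blockOp {k : ℕ} {H : Type} [NormedAddCommGroup H] [InnerProductSpace ℂ H]
    (T : Matrix (Fin k) (Fin k) (H →L[ℂ] H)) :
    matNorm (fun i j => (T i j : H → H)) = ‖blockOp T‖ₑ :=
  matNorm_eq_enorm _ _ fun v i => blockOp_apply T v i

lemma matNorm_scalar {k : ℕ} (m : Matrix (Fin k) (Fin k) ℂ) :
    matNorm (fun i j (c : ℂ) => m i j * c) =
      ‖Matrix.toEuclideanCLM (𝕜 := ℂ) (n := Fin k) m‖ₑ :=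
  matNorm_eq_enorm (H := ℂ) _ _ fun v i => by
    rfl

lemma minNorm_eq {E : Type} [NormedAddCommGroup E] [NormedSpace ℂ E] {k : ℕ}
    (x : Matrix (Fin k) (Fin k) E) : minNorm x = minNormOp E x := by
  unfold minNorm minNormOp
  apply le_antisymm
  · refine iSup₂_le fun f hf => ?_
    refine le_iSup₂_of_le (f.mkContinuous 1 fun z => by simpa using hf z)
      (LinearMap.mkContinuous_norm_le _ zero_le_one _) ?_
    rw [← matNorm_scalar]
    exact le_rfl
  · refine iSup₂_le fun f hf => ?_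
    refine le_iSup₂_of_le (f : E →ₗ[ℂ] ℂ) (fun z => by simpa using f.le_of_opNorm_le hf z) ?_
    rw [← matNorm_scalar]
    exact le_rfl

lemma maxNorm_eq {E : Type} [NormedAddCommGroup E] [NormedSpace ℂ E] {k : ℕ}
    (x : Matrix (Fin k) (Fin k) E) : maxNorm x = maxNormOp E x := by
  unfold maxNorm maxNormOp
  refine iSup_congr fun H => iSup_congr fun _ => iSup_congr fun _ => iSup_congr fun _ => ?_
  apply le_antisymm
  · refine iSup₂_le fun u hu => ?_
    let U : E →L[ℂ] (H →L[ℂ] H) :=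
      LinearMap.mkContinuous₂
        (LinearMap.mk₂ ℂ u (fun y z v => hu.map_add y z v) (fun c z v => hu.map_smul c z v)
          (fun z v w => hu.apply_add z v w) (fun c z v => hu.apply_smul c z v)) 1
        (fun z v => by simpa using hu.bound z v)
    refine le_iSup₂_of_le U (LinearMap.mkContinuous₂_norm_le _ zero_le_one _) ?_
    rw [← matNorm_blockOp]
    exact le_rfl
  · refine iSup₂_le fun u hu => ?_
    refine le_iSup₂_of_le (fun z => (u z : H → H)) ?_ ?_
    · refine ⟨?_, ?_, ?_, ?_, ?_⟩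
      · intro y z v; simp
      · intro c z v; simp
      · intro z v w; simp
      · intro c z v; simp
      · intro z v
        refine (u z).le_of_opNorm_le ?_ v
        simpa using u.le_of_opNorm_le hu z
    · rw [← matNorm_blockOp]
      exact le_rfl

/-- the short definition of `α` agrees with the one through Mathlib's bounded operators -/
theorem alpha_eq (E : Type) [NormedAddCommGroup E] [NormedSpace ℂ E] :
    alpha E = alphaOp E := by
  unfold alpha alphaOp
  refine iSup_congr fun k => ?_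
  apply le_antisymm
  · refine iSup₂_le fun x hx => ?_
    refine le_iSup₂_of_le (Matrix.of x) ?_ ?_
    · rw [← minNorm_eq]; exact hx
    · rw [← maxNorm_eq]; exact le_rfl
  · refine iSup₂_le fun x hx => ?_
    rw [← minNorm_eq] at hx
    rw [← maxNorm_eq]
    exact le_iSup₂_of_le x hx le_rfl

end Pool.Agent.Lib.MP_b87acb_an
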