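import Mathlib
import Pool.Agent.Lib.MP_b87acb_an.DefsOp
import Pool.Agent.Lib.MP_b87acb_an.Core

set_option autoImplicit false

open scoped ENNReal InnerProductSpace ComplexConjugate
open ContinuousLinearMap

namespace Pool.Agent.Lib.MP_b87acb_an

section Block

variable {k : ℕ} {H : Type} [NormedAddCommGroup H] [InnerProductSpace ℂ H]

/-- scalar matrix tensored with the identity of `H` -/
noncomputable def sc (H : Type) [NormedAddCommGroup H] [InnerProductSpace ℂ H]
    (m : Matrix (Fin k) (Fin k) ℂ) :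
    PiLp 2 (fun _ : Fin k => H) →L[ℂ] PiLp 2 (fun _ : Fin k => H) :=
  blockOp (m.map fun c => c • ContinuousLinearMap.id ℂ H)

/-- block diagonal operator -/
noncomputable def dg (k : ℕ) {H : Type} [NormedAddCommGroup H] [InnerProductSpace ℂ H]
    (T : H →L[ℂ] H) :
    PiLp 2 (fun _ : Fin k => H) →L[ℂ] PiLp 2 (fun _ : Fin k => H) :=
  blockOp (Matrix.diagonal fun _ => T)

lemma sc_apply (m : Matrix (Fin k) (Fin k) ℂ) (v : PiLp 2 (fun _ : Fin k => H)) (i : Fin k) :
    (sc H m v) i = ∑ j, m i j • v j := by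
  simp [sc, blockOp_apply]

lemma dg_apply (T : H →L[ℂ] H) (v : PiLp 2 (fun _ : Fin k => H)) (i : Fin k) :
    (dg k T v) i = T (v i) := by
  simp only [dg, blockOp_apply, Matrix.diagonal_apply]
  rw [Finset.sum_eq_single i]
  · simp
  · intro j _ hj
    simp [hj.symm]
  · intro h; exact absurd (Finset.mem_univ _) h

lemma sc_adjoint [CompleteSpace H] (m : Matrix (Fin k) (Fin k) ℂ) : adjoint (sc H m) = sc H m.conjTranspose := by
  symm
  rw [ContinuousLinearMap.eq_adjoint_iff]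
  intro v w
  rw [PiLp.inner_apply, PiLp.inner_apply]
  simp only [sc_apply, sum_inner, inner_sum, inner_smul_left, inner_smul_right,
    Matrix.conjTranspose_apply]
  rw [Finset.sum_comm]
  refine Finset.sum_congr rfl fun i _ => Finset.sum_congr rfl fun j _ => ?_
  simp

lemma sc_dg_comm (m : Matrix (Fin k) (Fin k) ℂ) (T : H →L[ℂ] H)
    (v : PiLp 2 (fun _ : Fin k => H)) : sc H m (dg k T v) = dg k T (sc H m v) := by
  ext i
  rw [sc_apply, dg_apply, sc_apply, map_sum]
  simp only [dg_apply, map_smul]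

/-- the star algebra map `m ↦ m ⊗ 1` -/
noncomputable def scHom (k : ℕ) (H : Type) [NormedAddCommGroup H] [InnerProductSpace ℂ H]
    [CompleteSpace H] :
    Matrix (Fin k) (Fin k) ℂ →⋆ₐ[ℂ]
      (PiLp 2 (fun _ : Fin k => H) →L[ℂ] PiLp 2 (fun _ : Fin k => H)) where
  toFun m := sc H m
  map_one' := by
    ext v i
    rw [sc_apply]
    simp [Matrix.one_apply]
  map_mul' m m' := by
    ext v i
    rw [mul_apply_eq_comp, sc_apply, sc_apply]
    simp only [sc_apply, Matrix.mul_apply, Finset.sum_smul, Finset.smul_sum, smul_smul]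
    rw [Finset.sum_comm]
  map_zero' := by
    ext v i
    rw [sc_apply]
    simp
  map_add' m m' := by
    ext v i
    rw [_root_.add_apply, PiLp.add_apply, sc_apply, sc_apply, sc_apply]
    simp [add_smul, Finset.sum_add_distrib]
  commutes' r := by
    ext v i
    rw [sc_apply]
    simp [Algebra.algebraMap_eq_smul_one, Matrix.one_apply]
  map_star' m := by
    rw [ContinuousLinearMap.star_eq_adjoint, sc_adjoint]
    rfl

lemma scHom_apply [CompleteSpace H] (m : Matrix (Fin k) (Fin k) ℂ) : scHom k H m = sc H m := rfl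

lemma norm_sc_le [CompleteSpace H] (m : Matrix (Fin k) (Fin k) ℂ) :
    ‖sc H m‖ ≤ ‖Matrix.toEuclideanCLM (𝕜 := ℂ) (n := Fin k) m‖ := by
  have h := NonUnitalStarAlgHom.norm_apply_le
    ((scHom k H).comp ((Matrix.toEuclideanCLM (𝕜 := ℂ) (n := Fin k)).symm :
      (EuclideanSpace ℂ (Fin k) →L[ℂ] EuclideanSpace ℂ (Fin k)) →⋆ₐ[ℂ]
        Matrix (Fin k) (Fin k) ℂ))
    (Matrix.toEuclideanCLM (𝕜 := ℂ) (n := Fin k) m)
  simpa [scHom_apply] using h

lemma norm_dg_le (T : H →L[ℂ] H) : ‖dg k T‖ ≤ ‖T‖ := by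
  refine ContinuousLinearMap.opNorm_le_bound _ (norm_nonneg _) fun v => ?_
  have h1 : ‖dg k T v‖ ^ 2 ≤ (‖T‖ * ‖v‖) ^ 2 := by
    rw [PiLp.norm_sq_eq_of_L2, mul_pow, PiLp.norm_sq_eq_of_L2 (fun _ : Fin k => H) v,
      Finset.mul_sum]
    refine Finset.sum_le_sum fun i _ => ?_
    rw [dg_apply, ← mul_pow]
    exact pow_le_pow_left₀ (norm_nonneg _) (T.le_opNorm _) 2
  exact le_of_sq_le_sq h1 (by positivity)

lemma dg_adjoint [CompleteSpace H] (T : H →L[ℂ] H) : adjoint (dg k T) = dg k (adjoint T) := by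
  symm
  rw [ContinuousLinearMap.eq_adjoint_iff]
  intro v w
  rw [PiLp.inner_apply, PiLp.inner_apply]
  refine Finset.sum_congr rfl fun i _ => ?_
  rw [dg_apply, dg_apply, adjoint_inner_left]

lemma sum_smul_dg {n : ℕ} (l : Fin n → ℂ) (T : Fin n → H →L[ℂ] H) :
    ∑ i, l i • dg k (T i) = dg k (∑ i, l i • T i) := by
  ext v j
  rw [dg_apply, _root_.sum_apply, _root_.sum_apply, WithLp.ofLp_sum, Finset.sum_apply]
  refine Finset.sum_congr rfl fun i _ => ?_
  rw [_root_.smul_apply, _root_.smul_apply, PiLp.smul_apply, dg_apply]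

lemma sum_smul_sc {n : ℕ} (l : Fin n → ℂ) (m : Fin n → Matrix (Fin k) (Fin k) ℂ) :
    ∑ i, l i • sc H (m i) = sc H (∑ i, l i • m i) := by
  ext v j
  rw [sc_apply, _root_.sum_apply, WithLp.ofLp_sum, Finset.sum_apply]
  simp only [_root_.smul_apply, PiLp.smul_apply, sc_apply, Finset.smul_sum, Matrix.sum_apply,
    Matrix.smul_apply, Finset.sum_smul, smul_smul, smul_eq_mul]
  rw [Finset.sum_comm]

end Block

section Min

variable {k : ℕ} {E : Type} [NormedAddCommGroup E] [NormedSpace ℂ E]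

lemma le_minNorm (x : Matrix (Fin k) (Fin k) E) (f : E →L[ℂ] ℂ) (hf : ‖f‖ ≤ 1) :
    ‖Matrix.toEuclideanCLM (𝕜 := ℂ) (n := Fin k) (x.map f)‖ₑ ≤ minNormOp E x :=
  le_iSup₂_of_le f hf le_rfl

lemma norm_le_one_of_minNorm_le {x : Matrix (Fin k) (Fin k) E} (hx : minNormOp E x ≤ 1)
    (f : E →L[ℂ] ℂ) (hf : ‖f‖ ≤ 1) :
    ‖Matrix.toEuclideanCLM (𝕜 := ℂ) (n := Fin k) (x.map f)‖ ≤ 1 := by
  have h1 := (le_minNorm x f hf).trans hx
  rw [← ofReal_norm] at h1
  exact ENNReal.ofReal_le_one.1 h1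

lemma norm_le_of_minNorm_le {x : Matrix (Fin k) (Fin k) E} (hx : minNormOp E x ≤ 1)
    (f : E →L[ℂ] ℂ) (c : ℝ) (hf : ‖f‖ ≤ c) :
    ‖Matrix.toEuclideanCLM (𝕜 := ℂ) (n := Fin k) (x.map f)‖ ≤ c := by
  rcases eq_or_lt_of_le ((norm_nonneg f).trans hf) with hc | hc
  · have hf0 : f = 0 := norm_le_zero_iff.1 (hf.trans hc.ge)
    have : x.map f = 0 := by
      ext i j; simp [hf0]
    rw [this, map_zero, norm_zero]
    exact hc.le
  · have hg : ‖((c⁻¹ : ℝ) : ℂ) • f‖ ≤ 1 := by
      rw [norm_smul, Complex.norm_real, Real.norm_of_nonneg (by positivity)]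
      calc c⁻¹ * ‖f‖ ≤ c⁻¹ * c := mul_le_mul_of_nonneg_left hf (by positivity)
        _ = 1 := inv_mul_cancel₀ hc.ne'
    have h3 := norm_le_one_of_minNorm_le hx _ hg
    have h2 : x.map (((c⁻¹ : ℝ) : ℂ) • f) = ((c⁻¹ : ℝ) : ℂ) • x.map f := by
      ext i j; simp
    rw [h2, map_smul, norm_smul, Complex.norm_real,
      Real.norm_of_nonneg (by positivity : (0 : ℝ) ≤ c⁻¹)] at h3
    generalize ‖Matrix.toEuclideanCLM (𝕜 := ℂ) (n := Fin k) (x.map f)‖ = N at h3 ⊢
    have h4 := mul_le_mul_of_nonneg_left h3 hc.le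
    rwa [← mul_assoc, mul_inv_cancel₀ hc.ne', one_mul, mul_one] at h4

/-- to bound `alphaOp E`, bound the norm on unit vectors -/
lemma alpha_le {B : ℝ} (hB : 0 ≤ B)
    (h : ∀ (k : ℕ) (x : Matrix (Fin k) (Fin k) E), minNormOp E x ≤ 1 →
      ∀ (H : Type) [NormedAddCommGroup H] [InnerProductSpace ℂ H] [CompleteSpace H]
        (u : E →L[ℂ] (H →L[ℂ] H)), ‖u‖ ≤ 1 →
        ∀ v : PiLp 2 (fun _ : Fin k => H), ‖v‖ = 1 → ‖blockOp (x.map u) v‖ ≤ B) :
    alphaOp E ≤ ENNReal.ofReal B := by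
  refine iSup_le fun k => iSup₂_le fun x hx => ?_
  refine iSup_le fun H => iSup_le fun _ => iSup_le fun _ => iSup_le fun _ =>
    iSup₂_le fun u hu => ?_
  rw [← ofReal_norm]
  refine ENNReal.ofReal_le_ofReal ?_
  refine ContinuousLinearMap.opNorm_le_of_unit_norm hB fun v hv => ?_
  exact h k x hx H u hu v hv

end Min

section UpperBounds

/-- the coordinate functional on `ℓ_∞^n` -/
noncomputable def coordInf {n : ℕ} (a : Fin n) : (Fin n → ℂ) →L[ℂ] ℂ := ContinuousLinearMap.proj a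

/-- the coordinate functional on `ℓ_2^n` -/
noncomputable def coordTwo {n : ℕ} (a : Fin n) : EuclideanSpace ℂ (Fin n) →L[ℂ] ℂ :=
  EuclideanSpace.proj a

lemma norm_coordInf_le {n : ℕ} (a : Fin n) : ‖coordInf a‖ ≤ 1 :=
  ContinuousLinearMap.opNorm_le_bound _ zero_le_one fun x => by
    rw [one_mul]; exact norm_le_pi_norm x a

lemma sum_smul_coordTwo_norm {n : ℕ} (l : Fin n → ℂ) (c : ℝ) (hc : 0 ≤ c)
    (hl : ∑ i, ‖l i‖ ^ 2 ≤ c ^ 2) :
    ‖∑ a, l a • (coordTwo a : EuclideanSpace ℂ (Fin n) →L[ℂ] ℂ)‖ ≤ c := by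
  refine ContinuousLinearMap.opNorm_le_bound _ hc fun x => ?_
  have e : (∑ a, l a • (coordTwo a : EuclideanSpace ℂ (Fin n) →L[ℂ] ℂ)) x = ∑ a, l a * x a := by
    rw [_root_.sum_apply]
    rfl
  rw [e]
  calc ‖∑ a, l a * x a‖ ≤ ∑ a, ‖l a‖ * ‖x a‖ := by
        refine (norm_sum_le _ _).trans (Finset.sum_le_sum fun a _ => ?_)
        exact (norm_mul (l a) (x a)).le
    _ ≤ Real.sqrt (∑ a, ‖l a‖ ^ 2) * Real.sqrt (∑ a, ‖x a‖ ^ 2) :=
        Real.sum_mul_le_sqrt_mul_sqrt _ _ _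
    _ ≤ c * ‖x‖ := by
        rw [← EuclideanSpace.norm_eq x]
        exact mul_le_mul_of_nonneg_right (Real.sqrt_le_iff.2 ⟨hc, hl⟩) (norm_nonneg x)

variable {k n : ℕ} {H : Type} [NormedAddCommGroup H] [InnerProductSpace ℂ H]

lemma blockOp_expand_inf (x : Matrix (Fin k) (Fin k) (Fin n → ℂ))
    (u : (Fin n → ℂ) →L[ℂ] (H →L[ℂ] H)) (v : PiLp 2 (fun _ : Fin k => H)) :
    blockOp (x.map u) v =
      ∑ a, sc H (x.map (coordInf a)) (dg k (u (Pi.single a 1)) v) := by
  ext i
  rw [blockOp_apply, WithLp.ofLp_sum, Finset.sum_apply]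
  simp only [sc_apply, dg_apply, Matrix.map_apply]
  rw [Finset.sum_comm]
  refine Finset.sum_congr rfl fun j _ => ?_
  have e : x i j = ∑ a, (coordInf a (x i j)) • (Pi.single a 1 : Fin n → ℂ) := by
    ext b
    rw [Finset.sum_apply, Finset.sum_eq_single b]
    · simp [coordInf]
    · intro c _ hc
      simp [hc.symm]
    · intro h; exact absurd (Finset.mem_univ _) h
  conv_lhs => rw [e]
  rw [map_sum, _root_.sum_apply]
  refine Finset.sum_congr rfl fun a _ => ?_
  rw [map_smul, _root_.smul_apply]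

lemma blockOp_expand_two (x : Matrix (Fin k) (Fin k) (EuclideanSpace ℂ (Fin n)))
    (u : EuclideanSpace ℂ (Fin n) →L[ℂ] (H →L[ℂ] H)) (v : PiLp 2 (fun _ : Fin k => H)) :
    blockOp (x.map u) v =
      ∑ a, sc H (x.map (coordTwo a)) (dg k (u (EuclideanSpace.single a 1)) v) := by
  ext i
  rw [blockOp_apply, WithLp.ofLp_sum, Finset.sum_apply]
  simp only [sc_apply, dg_apply, Matrix.map_apply]
  rw [Finset.sum_comm]
  refine Finset.sum_congr rfl fun j _ => ?_
  have e : x i j = ∑ a, (coordTwo a (x i j)) • (EuclideanSpace.single a (1 : ℂ)) := by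
    ext b
    rw [WithLp.ofLp_sum, Finset.sum_apply, Finset.sum_eq_single b]
    · simp [coordTwo]
    · intro c _ hc
      simp [hc.symm]
    · intro h; exact absurd (Finset.mem_univ _) h
  conv_lhs => rw [e]
  rw [map_sum, _root_.sum_apply]
  refine Finset.sum_congr rfl fun a _ => ?_
  rw [map_smul, _root_.smul_apply]

lemma comm_adj [CompleteSpace H] (m : Matrix (Fin k) (Fin k) ℂ) (T : H →L[ℂ] H)
    (v : PiLp 2 (fun _ : Fin k => H)) :
    sc H m (adjoint (dg k T) v) = adjoint (dg k T) (sc H m v) := by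
  rw [dg_adjoint, sc_dg_comm]

/-- The upper bound for `α(ℓ_∞^n)`. -/
theorem alpha_inf_le (n : ℕ) :
    alphaOp (Fin n → ℂ) ≤
      ENNReal.ofReal (Real.sqrt ((1 + Real.sqrt (1 + (n : ℝ) * (n - 1))) / 2)) := by
  refine alpha_le (Real.sqrt_nonneg _) fun k x hx H _ _ _ u hu v hv => ?_
  rw [blockOp_expand_inf]
  refine Real.le_sqrt_of_sq_le ?_
  refine bound_one (fun a => sc H (x.map (coordInf a)))
    (fun a => dg k (u (Pi.single a 1))) (fun i j v => sc_dg_comm _ _ _)
    (fun i j v => comm_adj _ _ _) (fun i => ?_) (fun l hl => ?_) v hv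
  · exact (norm_sc_le _).trans (norm_le_of_minNorm_le hx _ 1 (norm_coordInf_le i))
  · rw [sum_smul_dg]
    refine (norm_dg_le _).trans ?_
    have e : ∑ i, l i • u (Pi.single i 1) = u l := by
      have : l = ∑ a, l a • (Pi.single a 1 : Fin n → ℂ) := by
        ext b
        rw [Finset.sum_apply, Finset.sum_eq_single b]
        · simp
        · intro c _ hc
          simp [hc.symm]
        · intro h; exact absurd (Finset.mem_univ _) h
      conv_rhs => rw [this]
      rw [map_sum]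
      exact Finset.sum_congr rfl fun a _ => by rw [map_smul]
    rw [e]
    calc ‖u l‖ ≤ 1 * ‖l‖ := ContinuousLinearMap.le_of_opNorm_le _ hu l
      _ ≤ 1 * 1 := by
          refine mul_le_mul_of_nonneg_left ?_ zero_le_one
          exact (pi_norm_le_iff_of_nonneg zero_le_one).2 fun i => (hl i).le
      _ = 1 := one_mul 1

/-- The upper bound for `α(ℓ_2^n)`. -/
theorem alpha_two_le (n : ℕ) (hn : 0 < n) :
    alphaOp (EuclideanSpace ℂ (Fin n)) ≤ ENNReal.ofReal (((n : ℝ) + 1) / 2) := by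
  refine alpha_le (by positivity) fun k x hx H _ _ _ u hu v hv => ?_
  rw [blockOp_expand_two]
  refine bound_two hn (fun a => sc H (x.map (coordTwo a)))
    (fun a => dg k (u (EuclideanSpace.single a 1))) (fun i j v => sc_dg_comm _ _ _)
    (fun i j v => comm_adj _ _ _) (fun l hl => ?_) (fun i => ?_) (fun l hl => ?_) (fun i => ?_)
    v hv
  · rw [sum_smul_sc]
    refine (norm_sc_le _).trans ?_
    have e : ∑ i, l i • x.map (coordTwo i) = x.map (∑ a, l a • coordTwo a :
        EuclideanSpace ℂ (Fin n) →L[ℂ] ℂ) := by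
      ext p q
      simp [Matrix.sum_apply]
    rw [e]
    refine norm_le_of_minNorm_le hx _ _ (sum_smul_coordTwo_norm l _ (Real.sqrt_nonneg _) ?_)
    rw [Real.sq_sqrt (by positivity)]
    simp [hl]
  · refine (norm_sc_le _).trans (norm_le_of_minNorm_le hx _ 1 ?_)
    refine ContinuousLinearMap.opNorm_le_bound _ zero_le_one fun x => ?_
    rw [one_mul]
    exact PiLp.norm_apply_le x i
  · rw [sum_smul_dg]
    refine (norm_dg_le _).trans ?_
    have e : ∑ i, l i • u (EuclideanSpace.single i 1) = u (WithLp.toLp 2 l) := by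
      have : WithLp.toLp 2 l = ∑ a, l a • (EuclideanSpace.single a (1 : ℂ)) := by
        ext b
        rw [WithLp.ofLp_sum, Finset.sum_apply, Finset.sum_eq_single b]
        · simp
        · intro c _ hc
          simp [hc.symm]
        · intro h; exact absurd (Finset.mem_univ _) h
      conv_rhs => rw [this]
      rw [map_sum]
      exact Finset.sum_congr rfl fun a _ => by rw [map_smul]
    rw [e]
    calc ‖u (WithLp.toLp 2 l)‖ ≤ 1 * ‖WithLp.toLp 2 l‖ :=
          ContinuousLinearMap.le_of_opNorm_le _ hu _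
      _ = Real.sqrt n := by
          rw [one_mul, EuclideanSpace.norm_eq]
          simp [hl]
  · refine (norm_dg_le _).trans ?_
    calc ‖u (EuclideanSpace.single i 1)‖ ≤ 1 * ‖EuclideanSpace.single i (1 : ℂ)‖ :=
          ContinuousLinearMap.le_of_opNorm_le _ hu _
      _ = 1 := by simp

end UpperBounds

end Pool.Agent.Lib.MP_b87acb_an
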