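import Mathlib
import Pool.Agent.Lib.MP_b87acb_an.DefsOp
import Pool.Agent.Lib.MP_b87acb_an.Upper

set_option autoImplicit false

open scoped ENNReal InnerProductSpace ComplexConjugate
open ContinuousLinearMap

namespace Pool.Agent.Lib.MP_b87acb_an

section General

variable {k n : ℕ}

/-- the operator on `ℓ₂^k` given by a matrix -/
noncomputable abbrev op (M : Matrix (Fin k) (Fin k) ℂ) :
    EuclideanSpace ℂ (Fin k) →L[ℂ] EuclideanSpace ℂ (Fin k) :=
  Matrix.toEuclideanCLM (𝕜 := ℂ) (n := Fin k) M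

/-- the vector of `ℓ₂^k ⊗ ℓ₂^k` given by a matrix -/
noncomputable def vec (M : Matrix (Fin k) (Fin k) ℂ) :
    PiLp 2 (fun _ : Fin k => EuclideanSpace ℂ (Fin k)) :=
  WithLp.toLp 2 fun q => op M (EuclideanSpace.single q 1)

lemma vec_apply (M : Matrix (Fin k) (Fin k) ℂ) (q p : Fin k) : (vec M q) p = M p q := by
  simp [vec, op]

lemma norm_vec_sq (M : Matrix (Fin k) (Fin k) ℂ) : ‖vec M‖ ^ 2 = ∑ q, ∑ p, ‖M p q‖ ^ 2 := by
  rw [PiLp.norm_sq_eq_of_L2]
  refine Finset.sum_congr rfl fun q _ => ?_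
  rw [EuclideanSpace.norm_sq_eq]
  exact Finset.sum_congr rfl fun p _ => by rw [vec_apply]

variable {E : Type} [NormedAddCommGroup E] [NormedSpace ℂ E]

/-- action of the block operator on `vec M` -/
lemma blockOp_vec (x : Matrix (Fin k) (Fin k) E) (c : Fin n → (E →L[ℂ] ℂ))
    (B : Fin n → Matrix (Fin k) (Fin k) ℂ) (M : Matrix (Fin k) (Fin k) ℂ) :
    blockOp (x.map (∑ a, (c a).smulRight (op (B a)) :
      E →L[ℂ] (EuclideanSpace ℂ (Fin k) →L[ℂ] EuclideanSpace ℂ (Fin k)))) (vec M) =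
      vec (∑ a, B a * M * (x.map (c a)).transpose) := by
  ext p r
  rw [blockOp_apply, vec_apply, WithLp.ofLp_sum, Finset.sum_apply, Matrix.sum_apply]
  have h1 : ∀ j, (((x.map (∑ a, (c a).smulRight (op (B a)) :
      E →L[ℂ] (EuclideanSpace ℂ (Fin k) →L[ℂ] EuclideanSpace ℂ (Fin k)))) p j) (vec M j)) r =
      ∑ a, c a (x p j) * ((B a * M) r j) := by
    intro j
    rw [Matrix.map_apply, _root_.sum_apply, _root_.sum_apply, WithLp.ofLp_sum, Finset.sum_apply]
    refine Finset.sum_congr rfl fun a _ => ?_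
    rw [ContinuousLinearMap.smulRight_apply, _root_.smul_apply, PiLp.smul_apply, smul_eq_mul]
    congr 1
    rw [op, Matrix.ofLp_toEuclideanCLM, Matrix.mulVec, Matrix.mul_apply, dotProduct]
    exact Finset.sum_congr rfl fun i _ => by rw [vec_apply]
  rw [Finset.sum_congr rfl fun j _ => h1 j, Finset.sum_comm]
  refine Finset.sum_congr rfl fun a _ => ?_
  rw [Matrix.mul_apply]
  refine Finset.sum_congr rfl fun j _ => ?_
  rw [Matrix.transpose_apply, Matrix.map_apply, mul_comm]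

lemma le_maxNorm (x : Matrix (Fin k) (Fin k) E) (H : Type) [NormedAddCommGroup H]
    [InnerProductSpace ℂ H] [CompleteSpace H] (u : E →L[ℂ] (H →L[ℂ] H)) (hu : ‖u‖ ≤ 1) :
    ‖blockOp (x.map u)‖ₑ ≤ maxNormOp E x := by
  unfold maxNormOp
  refine le_iSup_of_le H ?_
  refine le_iSup_of_le (inferInstance : NormedAddCommGroup H) ?_
  refine le_iSup_of_le (inferInstance : InnerProductSpace ℂ H) ?_
  refine le_iSup_of_le (inferInstance : CompleteSpace H) ?_
  exact le_iSup₂_of_le u hu le_rfl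

lemma le_alpha (x : Matrix (Fin k) (Fin k) E) (hx : minNormOp E x ≤ 1) :
    maxNormOp E x ≤ alphaOp E :=
  le_iSup_of_le k (le_iSup₂_of_le x hx le_rfl)

/-- General lower bound. -/
lemma lower_general (x : Matrix (Fin k) (Fin k) E) (hx : minNormOp E x ≤ 1)
    (c : Fin n → (E →L[ℂ] ℂ)) (B : Fin n → Matrix (Fin k) (Fin k) ℂ)
    (hu : ‖(∑ a, (c a).smulRight (op (B a)) :
      E →L[ℂ] (EuclideanSpace ℂ (Fin k) →L[ℂ] EuclideanSpace ℂ (Fin k)))‖ ≤ 1)
    (M : Matrix (Fin k) (Fin k) ℂ) (r : ℝ)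
    (hr : r * ‖vec M‖ ≤ ‖vec (∑ a, B a * M * (x.map (c a)).transpose)‖) (hM : 0 < ‖vec M‖) :
    ENNReal.ofReal r ≤ alphaOp E := by
  refine le_trans ?_ (le_alpha x hx)
  refine le_trans ?_ (le_maxNorm x _ _ hu)
  rw [← ofReal_norm]
  refine ENNReal.ofReal_le_ofReal ?_
  have h := (blockOp (x.map (∑ a, (c a).smulRight (op (B a)) :
      E →L[ℂ] (EuclideanSpace ℂ (Fin k) →L[ℂ] EuclideanSpace ℂ (Fin k))))).le_opNorm (vec M)
  rw [blockOp_vec] at h
  exact le_of_mul_le_mul_right (hr.trans h) hM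

end General

end Pool.Agent.Lib.MP_b87acb_an
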