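import Mathlib
import Pool.Agent.Lib.MP_b87acb_an.Lower
import Pool.Agent.Lib.MP_b87acb_an.CAR

set_option autoImplicit false

open scoped ENNReal InnerProductSpace ComplexConjugate
open ContinuousLinearMap

namespace Pool.Agent.Lib.MP_b87acb_an

section Norms

variable {k n : ℕ} {C : Fin n → Matrix (Fin k) (Fin k) ℂ} {P : ℕ → Matrix (Fin k) (Fin k) ℂ}

lemma op_adjoint (M : Matrix (Fin k) (Fin k) ℂ) : adjoint (op M) = op M.conjTranspose := by
  have := map_star (Matrix.toEuclideanCLM (𝕜 := ℂ) (n := Fin k)) M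
  rw [ContinuousLinearMap.star_eq_adjoint] at this
  exact this.symm

lemma op_mul_apply (M M' : Matrix (Fin k) (Fin k) ℂ) (v : EuclideanSpace ℂ (Fin k)) :
    op (M * M') v = op M (op M' v) := by
  rw [op, map_mul]; rfl

lemma op_add_apply (M M' : Matrix (Fin k) (Fin k) ℂ) (v : EuclideanSpace ℂ (Fin k)) :
    op (M + M') v = op M v + op M' v := by
  rw [op, map_add]; rfl

/-- `‖M v‖² = re ⟪v, M* M v⟫` -/
lemma norm_op_sq (M : Matrix (Fin k) (Fin k) ℂ) (v : EuclideanSpace ℂ (Fin k)) :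
    ((‖op M v‖ ^ 2 : ℝ) : ℂ) = ⟪v, op (M.conjTranspose * M) v⟫_ℂ := by
  rw [op_mul_apply, ← op_adjoint, adjoint_inner_right, inner_self_eq_norm_sq_to_K]
  norm_cast

lemma conjT (h : IsCAR C P) (l : Fin n → ℂ) :
    (∑ i, l i • C i).conjTranspose = ∑ i, conj (l i) • (C i).transpose := by
  rw [Matrix.conjTranspose_sum]
  refine Finset.sum_congr rfl fun i _ => ?_
  rw [Matrix.conjTranspose_smul, h.real]
  rfl

lemma car_sum (h : IsCAR C P) (l : Fin n → ℂ) :
    (∑ i, l i • C i).conjTranspose * (∑ i, l i • C i) +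
      (∑ i, l i • C i) * (∑ i, l i • C i).conjTranspose =
      ((∑ i, ‖l i‖ ^ 2 : ℝ) : ℂ) • (1 : Matrix (Fin k) (Fin k) ℂ) := by
  rw [conjT h]
  simp only [Finset.sum_mul, Finset.mul_sum, Matrix.smul_mul, Matrix.mul_smul]
  rw [← Finset.sum_add_distrib]
  have e1 : ∑ i, (∑ j, l i • conj (l j) • ((C j).transpose * C i) +
        ∑ j, conj (l i) • l j • (C j * (C i).transpose)) =
      ∑ i, ∑ j, (l i * conj (l j)) • ((C j).transpose * C i + C i * (C j).transpose) := by
    rw [Finset.sum_add_distrib]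
    have e2 : ∑ i, ∑ j, conj (l i) • l j • (C j * (C i).transpose) =
        ∑ i, ∑ j, (l i * conj (l j)) • (C i * (C j).transpose) := by
      rw [Finset.sum_comm]
      refine Finset.sum_congr rfl fun i _ => Finset.sum_congr rfl fun j _ => ?_
      rw [smul_smul, mul_comm]
    rw [e2, ← Finset.sum_add_distrib]
    refine Finset.sum_congr rfl fun i _ => ?_
    rw [← Finset.sum_add_distrib]
    refine Finset.sum_congr rfl fun j _ => ?_
    rw [smul_smul, smul_add]
  rw [e1, Complex.ofReal_sum, Finset.sum_smul]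
  refine Finset.sum_congr rfl fun i _ => ?_
  rw [Finset.sum_eq_single i]
  · rw [h.car i i, if_pos rfl, mul_comm, ← Complex.normSq_eq_conj_mul_self,
      Complex.normSq_eq_norm_sq]
  · intro j _ hj
    rw [h.car j i, if_neg hj, smul_zero]
  · intro hi; exact absurd (Finset.mem_univ _) hi

lemma sq_sum_zero (h : IsCAR C P) (l : Fin n → ℂ) :
    (∑ i, l i • C i) * (∑ i, l i • C i) = 0 := by
  have e1 : (∑ i, l i • C i) * (∑ i, l i • C i) = ∑ i, ∑ j, (l i * l j) • (C i * C j) := by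
    rw [Finset.sum_mul]
    simp only [Finset.mul_sum, Matrix.smul_mul, Matrix.mul_smul, smul_smul]
    exact Finset.sum_congr rfl fun i _ => Finset.sum_congr rfl fun j _ => by rw [mul_comm]
  have e2 : ∑ i, ∑ j, (l i * l j) • (C i * C j) = ∑ i, ∑ j, (l i * l j) • (C j * C i) := by
    rw [Finset.sum_comm]
    refine Finset.sum_congr rfl fun i _ => Finset.sum_congr rfl fun j _ => ?_
    rw [mul_comm]
  have e3 : (∑ i, l i • C i) * (∑ i, l i • C i) + (∑ i, l i • C i) * (∑ i, l i • C i) = 0 := by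
    conv_lhs => rw [e1]
    conv_lhs => enter [2]; rw [e2]
    rw [← Finset.sum_add_distrib]
    refine Finset.sum_eq_zero fun i _ => ?_
    rw [← Finset.sum_add_distrib]
    refine Finset.sum_eq_zero fun j _ => ?_
    rw [← smul_add, h.anti, smul_zero]
  have e4 : (2 : ℂ) • ((∑ i, l i • C i) * (∑ i, l i • C i)) = 0 := by
    rw [two_smul]; exact e3
  exact (smul_eq_zero.1 e4).resolve_left two_ne_zero

/-- creation operators: `‖∑ lᵢ Cᵢ‖ ≤ |l|` -/
lemma norm_car_le (h : IsCAR C P) (l : Fin n → ℂ) :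
    ‖op (∑ i, l i • C i)‖ ≤ Real.sqrt (∑ i, ‖l i‖ ^ 2) := by
  refine ContinuousLinearMap.opNorm_le_bound _ (Real.sqrt_nonneg _) fun v => ?_
  set M := ∑ i, l i • C i with hM
  have hpos : 0 ≤ ∑ i, ‖l i‖ ^ 2 := Finset.sum_nonneg fun i _ => by positivity
  have h1 : ((‖op M v‖ ^ 2 + ‖op M.conjTranspose v‖ ^ 2 : ℝ) : ℂ) =
      (((∑ i, ‖l i‖ ^ 2) * ‖v‖ ^ 2 : ℝ) : ℂ) := by
    rw [Complex.ofReal_add, norm_op_sq, norm_op_sq, Matrix.conjTranspose_conjTranspose,
      ← inner_add_right, ← op_add_apply, car_sum h, op, map_smul, map_one, _root_.smul_apply,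
      inner_smul_right]
    rw [show (1 : EuclideanSpace ℂ (Fin k) →L[ℂ] EuclideanSpace ℂ (Fin k)) v = v from rfl,
      inner_self_eq_norm_sq_to_K]
    push_cast
    rfl
  have h2 : ‖op M v‖ ^ 2 + ‖op M.conjTranspose v‖ ^ 2 = (∑ i, ‖l i‖ ^ 2) * ‖v‖ ^ 2 := by
    exact_mod_cast h1
  have h3 : ‖op M v‖ ^ 2 ≤ (Real.sqrt (∑ i, ‖l i‖ ^ 2) * ‖v‖) ^ 2 := by
    rw [mul_pow, Real.sq_sqrt hpos, ← h2]
    exact le_add_of_nonneg_right (by positivity)
  exact le_of_sq_le_sq h3 (by positivity)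

/-- the Clifford generators -/
noncomputable def cl (C : Fin n → Matrix (Fin k) (Fin k) ℂ) (i : Fin n) :
    Matrix (Fin k) (Fin k) ℂ := C i + (C i).transpose

lemma sum_cl_real (h : IsCAR C P) (x : Fin n → ℝ) :
    ∑ i, (x i : ℂ) • cl C i =
      (∑ i, (x i : ℂ) • C i) + (∑ i, (x i : ℂ) • C i).conjTranspose := by
  rw [conjT h, ← Finset.sum_add_distrib]
  refine Finset.sum_congr rfl fun i _ => ?_
  rw [cl, smul_add, Complex.conj_ofReal]

lemma norm_cl_real (h : IsCAR C P) (x : Fin n → ℝ) :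
    ‖op (∑ i, (x i : ℂ) • cl C i)‖ ≤ Real.sqrt (∑ i, x i ^ 2) := by
  refine ContinuousLinearMap.opNorm_le_bound _ (Real.sqrt_nonneg _) fun v => ?_
  rw [sum_cl_real h]
  set M := ∑ i, (x i : ℂ) • C i with hM
  have hpos : 0 ≤ ∑ i, x i ^ 2 := Finset.sum_nonneg fun i _ => by positivity
  have e0 : (M + M.conjTranspose).conjTranspose * (M + M.conjTranspose) =
      ((∑ i, x i ^ 2 : ℝ) : ℂ) • (1 : Matrix (Fin k) (Fin k) ℂ) := by
    have e1 := car_sum h (fun i => (x i : ℂ))
    have e2 := sq_sum_zero h (fun i => (x i : ℂ))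
    rw [← hM] at e1 e2
    have e3 : M.conjTranspose * M.conjTranspose = 0 := by
      rw [← Matrix.conjTranspose_mul, e2, Matrix.conjTranspose_zero]
    rw [Matrix.conjTranspose_add, Matrix.conjTranspose_conjTranspose, add_mul, mul_add, mul_add,
      e2, e3, zero_add, add_zero, e1]
    simp
  have h1 : ((‖op (M + M.conjTranspose) v‖ ^ 2 : ℝ) : ℂ) =
      (((∑ i, x i ^ 2) * ‖v‖ ^ 2 : ℝ) : ℂ) := by
    rw [norm_op_sq, e0, op, map_smul, map_one, _root_.smul_apply, inner_smul_right]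
    rw [show (1 : EuclideanSpace ℂ (Fin k) →L[ℂ] EuclideanSpace ℂ (Fin k)) v = v from rfl,
      inner_self_eq_norm_sq_to_K]
    push_cast
    rfl
  have h2 : ‖op (M + M.conjTranspose) v‖ ^ 2 = (Real.sqrt (∑ i, x i ^ 2) * ‖v‖) ^ 2 := by
    rw [mul_pow, Real.sq_sqrt hpos]
    exact_mod_cast h1
  exact le_of_sq_le_sq h2.le (by positivity)

/-- Clifford generators: `‖∑ lᵢ γᵢ‖ ≤ √2 |l|` for complex `l` -/
lemma norm_cl_le (h : IsCAR C P) (l : Fin n → ℂ) :
    ‖op (∑ i, l i • cl C i)‖ ≤ Real.sqrt 2 * Real.sqrt (∑ i, ‖l i‖ ^ 2) := by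
  have e : ∑ i, l i • cl C i = ∑ i, ((l i).re : ℂ) • cl C i +
      Complex.I • ∑ i, ((l i).im : ℂ) • cl C i := by
    rw [Finset.smul_sum, ← Finset.sum_add_distrib]
    refine Finset.sum_congr rfl fun i _ => ?_
    rw [smul_smul, ← add_smul, mul_comm Complex.I, Complex.re_add_im]
  rw [e, op, map_add, map_smul]
  set X := ∑ i, (l i).re ^ 2 with hX
  set Y := ∑ i, (l i).im ^ 2 with hY
  have hX0 : 0 ≤ X := Finset.sum_nonneg fun i _ => by positivity
  have hY0 : 0 ≤ Y := Finset.sum_nonneg fun i _ => by positivity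
  have hXY : ∑ i, ‖l i‖ ^ 2 = X + Y := by
    rw [hX, hY, ← Finset.sum_add_distrib]
    refine Finset.sum_congr rfl fun i _ => ?_
    rw [← Complex.normSq_eq_norm_sq, Complex.normSq_apply]; ring
  calc _ ≤ ‖op (∑ i, ((l i).re : ℂ) • cl C i)‖ +
        ‖Complex.I • op (∑ i, ((l i).im : ℂ) • cl C i)‖ := norm_add_le _ _
    _ ≤ Real.sqrt X + Real.sqrt Y := by
        rw [norm_smul, Complex.norm_I, one_mul]
        exact add_le_add (norm_cl_real h _) (norm_cl_real h _)
    _ ≤ Real.sqrt 2 * Real.sqrt (∑ i, ‖l i‖ ^ 2) := by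
        rw [hXY, ← Real.sqrt_mul (by norm_num)]
        refine Real.le_sqrt_of_sq_le ?_
        have := Real.sq_sqrt hX0
        have := Real.sq_sqrt hY0
        nlinarith [sq_nonneg (Real.sqrt X - Real.sqrt Y)]

lemma cl_transpose (i : Fin n) : (cl C i).transpose = cl C i := by
  rw [cl, Matrix.transpose_add, Matrix.transpose_transpose, add_comm]

lemma cl_sq (h : IsCAR C P) (i : Fin n) : cl C i * cl C i = 1 := by
  have e1 := h.car i i
  have e2 := h.anti i i
  have e3 : C i * C i = 0 := by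
    have : (2 : ℂ) • (C i * C i) = 0 := by rw [two_smul]; exact e2
    exact (smul_eq_zero.1 this).resolve_left two_ne_zero
  have e4 : (C i).transpose * (C i).transpose = 0 := by
    rw [← Matrix.transpose_mul, e3, Matrix.transpose_zero]
  rw [if_pos rfl] at e1
  rw [cl, add_mul, mul_add, mul_add, e3, e4, zero_add, add_zero, add_comm, e1]

lemma norm_cl_one (h : IsCAR C P) (a : Fin n) : ‖op (cl C a)‖ ≤ 1 := by
  have h1 := norm_cl_real h (Pi.single a 1)
  have e1 : ∑ i, ((Pi.single a (1 : ℝ) : Fin n → ℝ) i : ℂ) • cl C i = cl C a := by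
    rw [Finset.sum_eq_single a]
    · simp
    · intro b _ hb
      simp [hb]
    · intro hi; exact absurd (Finset.mem_univ _) hi
  have e2 : ∑ i, (Pi.single a (1 : ℝ) : Fin n → ℝ) i ^ 2 = 1 := by
    rw [Finset.sum_eq_single a]
    · simp
    · intro b _ hb
      simp [hb]
    · intro hi; exact absurd (Finset.mem_univ _) hi
  rw [e1, e2, Real.sqrt_one] at h1
  exact h1

lemma norm_vec_smul (c : ℂ) (M : Matrix (Fin k) (Fin k) ℂ) :
    ‖vec (c • M)‖ = ‖c‖ * ‖vec M‖ := by
  have : vec (c • M) = c • vec M := by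
    ext q p
    rw [vec_apply, PiLp.smul_apply, PiLp.smul_apply, vec_apply]
    rfl
  rw [this, norm_smul]

lemma norm_vec_one_pos (hk : 0 < k) : 0 < ‖vec (1 : Matrix (Fin k) (Fin k) ℂ)‖ := by
  have h1 := norm_vec_sq (1 : Matrix (Fin k) (Fin k) ℂ)
  have h2 : ∑ q : Fin k, ∑ p : Fin k, ‖(1 : Matrix (Fin k) (Fin k) ℂ) p q‖ ^ 2 = k := by
    have : ∀ q : Fin k, ∑ p : Fin k, ‖(1 : Matrix (Fin k) (Fin k) ℂ) p q‖ ^ 2 = 1 := by
      intro q
      rw [Finset.sum_eq_single q]
      · simp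
      · intro b _ hb
        simp [hb]
      · intro hi; exact absurd (Finset.mem_univ _) hi
    simp [this]
  rw [h2] at h1
  have h3 : (0 : ℝ) < k := by exact_mod_cast hk
  by_contra hcon
  have h4 : ‖vec (1 : Matrix (Fin k) (Fin k) ℂ)‖ = 0 := le_antisymm (not_lt.1 hcon) (norm_nonneg _)
  rw [h4] at h1
  norm_num at h1
  linarith

end Norms

section Main

/-- sum of the coordinates of a functional on `ℓ_∞^n` -/
lemma sum_norm_functional_inf {n : ℕ} (f : (Fin n → ℂ) →L[ℂ] ℂ) :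
    ∑ a, ‖f (Pi.single a 1)‖ ≤ ‖f‖ := by
  set z : Fin n → ℂ := fun a => conj (f (Pi.single a 1)) / ‖f (Pi.single a 1)‖ with hz
  have hz1 : ‖z‖ ≤ 1 := by
    refine (pi_norm_le_iff_of_nonneg zero_le_one).2 fun a => ?_
    rw [hz]
    simp only [norm_div, RCLike.norm_conj, Complex.norm_real, norm_norm]
    exact div_self_le_one _
  have e : f z = ((∑ a, ‖f (Pi.single a 1)‖ : ℝ) : ℂ) := by
    have e1 : z = ∑ a, z a • (Pi.single a 1 : Fin n → ℂ) := by
      ext b
      rw [Finset.sum_apply, Finset.sum_eq_single b]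
      · simp
      · intro c _ hc
        simp [hc.symm]
      · intro h; exact absurd (Finset.mem_univ _) h
    rw [e1, map_sum]
    push_cast
    refine Finset.sum_congr rfl fun a _ => ?_
    rw [map_smul, smul_eq_mul, hz]
    simp only
    by_cases h0 : f (Pi.single a 1) = 0
    · simp [h0]
    · have h1 : (‖f (Pi.single a 1)‖ : ℂ) ≠ 0 := by
        exact_mod_cast norm_ne_zero_iff.2 h0
      rw [div_mul_eq_mul_div, div_eq_iff h1, ← Complex.normSq_eq_conj_mul_self,
        Complex.normSq_eq_norm_sq]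
      push_cast; ring
  have h1 := f.le_opNorm z
  rw [e, Complex.norm_real, Real.norm_of_nonneg (Finset.sum_nonneg fun a _ => norm_nonneg _)] at h1
  calc _ ≤ ‖f‖ * ‖z‖ := h1
    _ ≤ ‖f‖ * 1 := mul_le_mul_of_nonneg_left hz1 (norm_nonneg _)
    _ = ‖f‖ := mul_one _

lemma sum_sq_functional_two {n : ℕ} (f : EuclideanSpace ℂ (Fin n) →L[ℂ] ℂ) :
    Real.sqrt (∑ a, ‖f (EuclideanSpace.single a 1)‖ ^ 2) ≤ ‖f‖ := by
  set z : EuclideanSpace ℂ (Fin n) :=
    WithLp.toLp 2 fun a => conj (f (EuclideanSpace.single a 1)) with hz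
  have hzn : ‖z‖ = Real.sqrt (∑ a, ‖f (EuclideanSpace.single a 1)‖ ^ 2) := by
    rw [EuclideanSpace.norm_eq]
    simp [hz]
  have e : f z = ((∑ a, ‖f (EuclideanSpace.single a 1)‖ ^ 2 : ℝ) : ℂ) := by
    have e1 : z = ∑ a, z a • (EuclideanSpace.single a (1 : ℂ)) := by
      ext b
      rw [WithLp.ofLp_sum, Finset.sum_apply, Finset.sum_eq_single b]
      · simp
      · intro c _ hc
        simp [hc.symm]
      · intro h; exact absurd (Finset.mem_univ _) h
    rw [e1, map_sum]
    push_cast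
    refine Finset.sum_congr rfl fun a _ => ?_
    rw [map_smul, smul_eq_mul, hz]
    simp only
    rw [← Complex.normSq_eq_conj_mul_self, Complex.normSq_eq_norm_sq]
    push_cast; ring
  have h1 := f.le_opNorm z
  set s := Real.sqrt (∑ a, ‖f (EuclideanSpace.single a 1)‖ ^ 2) with hs
  have hs2 : s ^ 2 = ∑ a, ‖f (EuclideanSpace.single a 1)‖ ^ 2 :=
    Real.sq_sqrt (Finset.sum_nonneg fun a _ => by positivity)
  rw [e, ← hs2, hzn, Complex.norm_real, Real.norm_of_nonneg (by positivity)] at h1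
  rcases eq_or_lt_of_le (Real.sqrt_nonneg (∑ a, ‖f (EuclideanSpace.single a 1)‖ ^ 2)) with h0 | h0
  · rw [← hs] at h0
    rw [← h0]; exact norm_nonneg _
  · rw [← hs] at h0
    rw [sq] at h1
    exact le_of_mul_le_mul_right h1 h0

/-- Lower bound for `α(ℓ_∞^n)` (Paulsen). -/
theorem le_alpha_inf (n : ℕ) (hn : 0 < n) :
    ENNReal.ofReal (Real.sqrt ((n : ℝ) / 2)) ≤ alphaOp (Fin n → ℂ) := by
  obtain ⟨k, C, P, hk, h⟩ := exists_car n
  have hn' : (0 : ℝ) < n := by exact_mod_cast hn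
  set r : ℝ := (Real.sqrt (2 * n))⁻¹ with hr
  have hr0 : 0 < r := by rw [hr]; positivity
  set x : Matrix (Fin k) (Fin k) (Fin n → ℂ) := Matrix.of fun p q a => cl C a p q with hx
  have hxc : ∀ a, x.map (coordInf a) = cl C a := by
    intro a; ext p q; rfl
  refine lower_general x ?_ coordInf (fun a => (r : ℂ) • cl C a) ?_ 1 _ ?_ (norm_vec_one_pos hk)
  · refine iSup₂_le fun f hf => ?_
    rw [← ofReal_norm]
    refine ENNReal.ofReal_le_one.2 ?_
    have e : x.map f = ∑ a, f (Pi.single a 1) • cl C a := by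
      ext p q
      rw [Matrix.map_apply, Matrix.sum_apply]
      have e1 : x p q = ∑ a, (x p q a) • (Pi.single a 1 : Fin n → ℂ) := by
        ext b
        rw [Finset.sum_apply, Finset.sum_eq_single b]
        · simp
        · intro c _ hc
          simp [hc.symm]
        · intro h; exact absurd (Finset.mem_univ _) h
      rw [e1, map_sum]
      refine Finset.sum_congr rfl fun a _ => ?_
      rw [map_smul, Matrix.smul_apply, smul_eq_mul, smul_eq_mul, mul_comm]
      rfl
    rw [e, map_sum]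
    calc _ ≤ ∑ a, ‖f (Pi.single a 1)‖ * 1 := by
          refine (norm_sum_le _ _).trans (Finset.sum_le_sum fun a _ => ?_)
          rw [map_smul, norm_smul]
          exact mul_le_mul_of_nonneg_left (norm_cl_one h a) (norm_nonneg _)
      _ ≤ ‖f‖ := by simpa using sum_norm_functional_inf f
      _ ≤ 1 := hf
  · refine ContinuousLinearMap.opNorm_le_bound _ zero_le_one fun z => ?_
    have e : (∑ a, (coordInf a : (Fin n → ℂ) →L[ℂ] ℂ).smulRight (op ((r : ℂ) • cl C a))) z =
        (r : ℂ) • op (∑ a, z a • cl C a) := by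
      rw [_root_.sum_apply, op, map_sum, Finset.smul_sum]
      refine Finset.sum_congr rfl fun a _ => ?_
      have e5 : op ((r : ℂ) • cl C a) = (r : ℂ) • op (cl C a) := by rw [op, map_smul]
      rw [ContinuousLinearMap.smulRight_apply, map_smul, e5, smul_smul, smul_smul, mul_comm]
      rfl
    rw [e, norm_smul, Complex.norm_real, Real.norm_of_nonneg hr0.le, one_mul]
    have h1 : Real.sqrt (∑ a, ‖z a‖ ^ 2) ≤ Real.sqrt n * ‖z‖ := by
      rw [Real.sqrt_le_left (by positivity), mul_pow, Real.sq_sqrt hn'.le]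
      calc ∑ a, ‖z a‖ ^ 2 ≤ ∑ _a : Fin n, ‖z‖ ^ 2 :=
            Finset.sum_le_sum fun a _ => pow_le_pow_left₀ (norm_nonneg _) (norm_le_pi_norm z a) 2
        _ = n * ‖z‖ ^ 2 := by simp
    calc r * ‖op (∑ a, z a • cl C a)‖ ≤ r * (Real.sqrt 2 * (Real.sqrt n * ‖z‖)) := by
          refine mul_le_mul_of_nonneg_left ((norm_cl_le h z).trans ?_) hr0.le
          exact mul_le_mul_of_nonneg_left h1 (Real.sqrt_nonneg _)
      _ = r * Real.sqrt (2 * n) * ‖z‖ := by
          rw [Real.sqrt_mul (by norm_num)]; ring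
      _ = ‖z‖ := by rw [hr, inv_mul_cancel₀ (by positivity), one_mul]
  · have e : ∑ a, (r : ℂ) • cl C a * 1 * (x.map (coordInf a)).transpose =
        ((r * n : ℝ) : ℂ) • (1 : Matrix (Fin k) (Fin k) ℂ) := by
      have : ∀ a, (r : ℂ) • cl C a * 1 * (x.map (coordInf a)).transpose =
          (r : ℂ) • (1 : Matrix (Fin k) (Fin k) ℂ) := by
        intro a
        rw [hxc, cl_transpose, mul_one, Matrix.smul_mul, cl_sq h]
      rw [Finset.sum_congr rfl fun a _ => this a, Finset.sum_const, Finset.card_univ,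
        Fintype.card_fin, ← Nat.cast_smul_eq_nsmul ℂ, smul_smul]
      push_cast; rw [mul_comm]
    rw [e, norm_vec_smul, Complex.norm_real, Real.norm_of_nonneg (by positivity)]
    refine mul_le_mul_of_nonneg_right ?_ (norm_nonneg _)
    rw [Real.sqrt_le_left (by positivity), mul_pow, hr, inv_pow, Real.sq_sqrt (by positivity)]
    apply le_of_eq
    field_simp

/-- Lower bounds for `α(ℓ_2^n)`. -/
theorem le_alpha_two (n m : ℕ) (hm : m ≤ n) :
    ENNReal.ofReal (Real.sqrt (((m : ℝ) + 1) * ((n : ℝ) - m))) ≤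
      alphaOp (EuclideanSpace ℂ (Fin n)) := by
  obtain ⟨k, C, P, hk, h⟩ := exists_car n
  set x : Matrix (Fin k) (Fin k) (EuclideanSpace ℂ (Fin n)) :=
    Matrix.of fun p q => WithLp.toLp 2 fun a => C a p q with hx
  have hxc : ∀ a, x.map (coordTwo a) = C a := by
    intro a; ext p q; rfl
  have hPpos : 0 < ‖vec (P m)‖ := by
    have h1 := norm_vec_sq (P m)
    rw [h.card m] at h1
    have h2 : (0 : ℝ) < n.choose m := by exact_mod_cast Nat.choose_pos hm
    by_contra hcon
    have h4 : ‖vec (P m)‖ = 0 := le_antisymm (not_lt.1 hcon) (norm_nonneg _)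
    rw [h4] at h1
    norm_num at h1
    linarith
  refine lower_general x ?_ coordTwo C ?_ (P m) _ ?_ hPpos
  · refine iSup₂_le fun f hf => ?_
    rw [← ofReal_norm]
    refine ENNReal.ofReal_le_one.2 ?_
    have e : x.map f = ∑ a, f (EuclideanSpace.single a 1) • C a := by
      ext p q
      rw [Matrix.map_apply, Matrix.sum_apply]
      have e1 : x p q = ∑ a, (x p q a) • (EuclideanSpace.single a (1 : ℂ)) := by
        ext b
        rw [WithLp.ofLp_sum, Finset.sum_apply, Finset.sum_eq_single b]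
        · simp
        · intro c _ hc
          simp [hc.symm]
        · intro h; exact absurd (Finset.mem_univ _) h
      rw [e1, map_sum]
      refine Finset.sum_congr rfl fun a _ => ?_
      rw [map_smul, Matrix.smul_apply, smul_eq_mul, smul_eq_mul, mul_comm]
      rfl
    rw [e]
    exact (norm_car_le h _).trans ((sum_sq_functional_two f).trans hf)
  · refine ContinuousLinearMap.opNorm_le_bound _ zero_le_one fun z => ?_
    have e : (∑ a, (coordTwo a : EuclideanSpace ℂ (Fin n) →L[ℂ] ℂ).smulRight (op (C a))) z =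
        op (∑ a, z a • C a) := by
      rw [_root_.sum_apply, op, map_sum]
      refine Finset.sum_congr rfl fun a _ => ?_
      rw [ContinuousLinearMap.smulRight_apply, map_smul]
      rfl
    rw [e, one_mul, EuclideanSpace.norm_eq z]
    exact norm_car_le h _
  · simp only [hxc]
    rw [h.step m, norm_vec_smul]
    have e1 : ‖((m : ℂ) + 1)‖ = (m : ℝ) + 1 := by
      have : ((m : ℂ) + 1) = (((m : ℝ) + 1 : ℝ) : ℂ) := by push_cast; rfl
      rw [this, Complex.norm_real, Real.norm_of_nonneg (by positivity)]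
    rw [e1]
    have hnm : (0 : ℝ) ≤ (n : ℝ) - m := by
      have : (m : ℝ) ≤ n := by exact_mod_cast hm
      linarith
    have key : (Real.sqrt (((m : ℝ) + 1) * ((n : ℝ) - m)) * ‖vec (P m)‖) ^ 2 ≤
        (((m : ℝ) + 1) * ‖vec (P (m + 1))‖) ^ 2 := by
      rw [mul_pow, mul_pow, Real.sq_sqrt (by positivity), norm_vec_sq, norm_vec_sq, h.card,
        h.card]
      have h3 : ((n.choose (m + 1) : ℝ)) * (m + 1) = n.choose m * (n - m) := by
        have := Nat.choose_succ_right_eq n m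
        have h4 : ((n.choose (m + 1) * (m + 1) : ℕ) : ℝ) = ((n.choose m * (n - m) : ℕ) : ℝ) := by
          rw [this]
        rw [Nat.cast_mul, Nat.cast_mul, Nat.cast_sub hm] at h4
        push_cast at h4
        exact h4
      apply le_of_eq
      linear_combination (-((m : ℝ) + 1)) * h3
    exact le_of_sq_le_sq key (by positivity)

end Main

end Pool.Agent.Lib.MP_b87acb_an
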